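import Pool.Agent.V8H55.HW.Pos

set_option autoImplicit false

open MeasureTheory Filter Topology Set

namespace Pool.Agent.V8H55.HW

/-- the dual weight -/
noncomputable def sig (p : ℝ) (W : ℝ → ℝ) (x : ℝ) : ℝ := W x ^ (-(1 / (p - 1)))

lemma sig_meas {p : ℝ} {W : ℝ → ℝ} (hm : Measurable W) : Measurable (sig p W) :=
  hm.pow_const _

lemma sig_nonneg {p : ℝ} {W : ℝ → ℝ} (h0 : ∀ x, 0 ≤ W x) (x : ℝ) : 0 ≤ sig p W x :=
  Real.rpow_nonneg (h0 x) _

lemma sig_pos {p : ℝ} {W : ℝ → ℝ} {x : ℝ} (h : 0 < W x) : 0 < sig p W x :=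
  Real.rpow_pos_of_pos h _

lemma sig_pow {p : ℝ} (hp : 1 < p) {W : ℝ → ℝ} {x : ℝ} (h : 0 < W x) :
    sig p W x ^ (p - 1) * W x = 1 := by
  unfold sig
  rw [← Real.rpow_mul h.le]
  have : -(1 / (p - 1)) * (p - 1) = -1 := by
    have : p - 1 ≠ 0 := by linarith
    field_simp
  rw [this, Real.rpow_neg_one]
  exact inv_mul_cancel₀ h.ne'

/-- truncated dual weight on a set -/
noncomputable def tr (p : ℝ) (W : ℝ → ℝ) (A : Set ℝ) (n : ℕ) : ℝ → ℝ :=
  indicator A (fun y => min (sig p W y) n)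

lemma tr_nonneg {p : ℝ} {W : ℝ → ℝ} (h0 : ∀ x, 0 ≤ W x) (A : Set ℝ) (n : ℕ) (x : ℝ) :
    0 ≤ tr p W A n x := by
  unfold tr
  by_cases hx : x ∈ A
  · rw [indicator_of_mem hx]
    exact le_min (sig_nonneg h0 x) (Nat.cast_nonneg n)
  · rw [indicator_of_notMem hx]

lemma tr_meas {p : ℝ} {W : ℝ → ℝ} (hm : Measurable W) {A : Set ℝ} (hA : MeasurableSet A) (n : ℕ) :
    Measurable (tr p W A n) :=
  (((sig_meas hm).min measurable_const)).indicator hA

lemma tr_int {p : ℝ} {W : ℝ → ℝ} (hm : Measurable W) (h0 : ∀ x, 0 ≤ W x) {A : Set ℝ}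
    (hA : MeasurableSet A) (hfin : volume A ≠ ⊤) (n : ℕ) : Integrable (tr p W A n) := by
  have h1 : Integrable (indicator A (fun _ : ℝ => (n : ℝ))) := by
    rw [integrable_indicator_iff hA]
    exact integrableOn_const hfin
  refine h1.mono' (tr_meas hm hA n).aestronglyMeasurable (Eventually.of_forall fun x => ?_)
  rw [Real.norm_eq_abs, abs_of_nonneg (tr_nonneg h0 A n x)]
  unfold tr
  by_cases hx : x ∈ A
  · rw [indicator_of_mem hx, indicator_of_mem hx]
    exact min_le_right _ _
  · rw [indicator_of_notMem hx, indicator_of_notMem hx]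

/-- the cost of the truncated dual weight is at most its mass -/
lemma wInt_tr_le {p : ℝ} (hp : 1 < p) {W : ℝ → ℝ} (h0 : ∀ x, 0 ≤ W x) (hpos : ∀ᵐ x, 0 < W x)
    (A : Set ℝ) (n : ℕ) :
    wInt p W (tr p W A n) ≤ ∫⁻ x, ENNReal.ofReal (tr p W A n x) := by
  unfold wInt
  refine lintegral_mono_ae ?_
  filter_upwards [hpos] with x hx
  apply ENNReal.ofReal_le_ofReal
  have h1 := tr_nonneg (p := p) h0 A n x
  rw [abs_of_nonneg h1]
  rcases h1.eq_or_lt with h | h
  · rw [← h, Real.zero_rpow (by linarith), zero_mul]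
  · have hle : tr p W A n x ≤ sig p W x := by
      unfold tr
      by_cases hx : x ∈ A
      · rw [indicator_of_mem hx]
        exact min_le_left _ _
      · rw [indicator_of_notMem hx]
        exact sig_nonneg h0 x
    have e : tr p W A n x ^ p = tr p W A n x * tr p W A n x ^ (p - 1) := by
      nth_rewrite 2 [← Real.rpow_one (tr p W A n x)]
      rw [← Real.rpow_add h]
      congr 1
      ring
    rw [e, mul_assoc]
    have h2 : tr p W A n x ^ (p - 1) * W x ≤ sig p W x ^ (p - 1) * W x :=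
      mul_le_mul_of_nonneg_right (Real.rpow_le_rpow h1 hle (by linarith)) hx.le
    rw [sig_pow hp hx] at h2
    nlinarith

/-- the truncated masses increase to the total mass -/
lemma tr_tendsto {p : ℝ} {W : ℝ → ℝ} (hm : Measurable W) {A : Set ℝ} (hA : MeasurableSet A) :
    Tendsto (fun n : ℕ => ∫⁻ x, ENNReal.ofReal (tr p W A n x)) atTop
      (𝓝 (∫⁻ x in A, ENNReal.ofReal (sig p W x))) := by
  have e : ∫⁻ x in A, ENNReal.ofReal (sig p W x) =
      ∫⁻ x, indicator A (fun x => ENNReal.ofReal (sig p W x)) x := (lintegral_indicator hA _).symm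
  rw [e]
  refine lintegral_tendsto_of_tendsto_of_monotone
    (fun n => (tr_meas hm hA n).ennreal_ofReal.aemeasurable) ?_ ?_
  · refine Eventually.of_forall fun x => ?_
    intro n m hnm
    apply ENNReal.ofReal_le_ofReal
    unfold tr
    by_cases hx : x ∈ A
    · rw [indicator_of_mem hx, indicator_of_mem hx]
      exact min_le_min_left _ (by exact_mod_cast hnm)
    · rw [indicator_of_notMem hx, indicator_of_notMem hx]
  · refine Eventually.of_forall fun x => ?_
    by_cases hx : x ∈ A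
    · rw [indicator_of_mem hx]
      refine Tendsto.congr' ?_ tendsto_const_nhds
      obtain ⟨N, hN⟩ := exists_nat_ge (sig p W x)
      filter_upwards [eventually_ge_atTop N] with n hn
      unfold tr
      rw [indicator_of_mem hx, min_eq_left]
      exact hN.trans (by exact_mod_cast hn)
    · rw [indicator_of_notMem hx]
      refine Tendsto.congr' ?_ tendsto_const_nhds
      refine Eventually.of_forall fun n => ?_
      simp only [tr, indicator_of_notMem hx, ENNReal.ofReal_zero]

/-- testing the inequality on a nonnegative function supported in `[a,b]` -/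
lemma test_ineq {p : ℝ} (hp : 1 < p) {W : ℝ → ℝ} (hm : Measurable W) (h0 : ∀ x, 0 ≤ W x)
    {C : ℝ} (hC0 : 0 ≤ C) {a b : ℝ} (hab : a < b) {f : ℝ → ℝ} (hf : Integrable f)
    (hfn : ∀ x, 0 ≤ f x) (hfs : ∀ x, x ∉ Icc a b → f x = 0) {J : Set ℝ}
    (hJ : MeasurableSet J) (hJs : J ⊆ Ioo b (2 * b - a) ∪ Ioo (2 * a - b) a)
    (hfm : 0 < ∫ x, f x)
    (hC : wInt p W (hilbert f) ≤ ENNReal.ofReal C * wInt p W f)
    (hcost : wInt p W f ≤ ∫⁻ x, ENNReal.ofReal (f x)) :
    (∫⁻ x in J, ENNReal.ofReal (W x)) * (∫⁻ x, ENNReal.ofReal (f x)) ^ (p - 1) ≤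
      ENNReal.ofReal (C * (2 * Real.pi * (b - a)) ^ p) := by
  set m : ℝ := ∫ x, f x with hmdef
  set L : ℝ := b - a with hL
  have hLpos : 0 < L := by rw [hL]; linarith
  have hmass : ∫⁻ x, ENNReal.ofReal (f x) = ENNReal.ofReal m := by
    rw [hmdef, ofReal_integral_eq_lintegral_ofReal hf (Eventually.of_forall hfn)]
  rw [hmass] at hcost ⊢
  have hpi := Real.pi_pos
  -- lower bound on J
  have hlow : ∀ x ∈ J, m / (2 * Real.pi * L) ≤ |hilbert f x| := by
    intro x hx
    have hsupp : ∀ y, f y ≠ 0 → y ∈ Icc a b := fun y hy => by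
      by_contra hcon
      exact hy (hfs y hcon)
    rcases hJs hx with h | h
    · have hr : 0 < x - b := by linarith [h.1]
      have hv : ∀ᵐ y, |y - x| < x - b → f y = 0 := by
        refine Eventually.of_forall fun y hy => hfs y fun hmem => ?_
        rw [abs_lt] at hy
        linarith [hmem.2, hy.1]
      rw [hilbert_eq (hasPV_of_vanish hr hv)]
      have hi := int_vanish hf hr hv
      have h1 : m * (1 / (2 * L)) ≤ ∫ y, f y / (x - y) := by
        rw [hmdef, ← integral_mul_const]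
        refine integral_mono (hf.mul_const _) hi fun y => ?_
        by_cases hy : f y = 0
        · simp [hy]
        · have hmem := hsupp y hy
          simp only
          rw [div_eq_mul_one_div (f y)]
          refine mul_le_mul_of_nonneg_left ?_ (hfn y)
          apply one_div_le_one_div_of_le
          · linarith [hmem.2]
          · linarith [hmem.1, h.2]
      have h2 : 0 ≤ ∫ y, f y / (x - y) := le_trans (by positivity) h1
      rw [abs_of_nonneg (by positivity)]
      calc m / (2 * Real.pi * L) = 1 / Real.pi * (m * (1 / (2 * L))) := by field_simp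
        _ ≤ _ := mul_le_mul_of_nonneg_left h1 (by positivity)
    · have hr : 0 < a - x := by linarith [h.2]
      have hv : ∀ᵐ y, |y - x| < a - x → f y = 0 := by
        refine Eventually.of_forall fun y hy => hfs y fun hmem => ?_
        rw [abs_lt] at hy
        linarith [hmem.1, hy.2]
      rw [hilbert_eq (hasPV_of_vanish hr hv)]
      have hi := int_vanish hf hr hv
      have h1 : m * (1 / (2 * L)) ≤ -∫ y, f y / (x - y) := by
        rw [hmdef, ← integral_mul_const, ← integral_neg]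
        refine integral_mono (hf.mul_const _) hi.neg fun y => ?_
        by_cases hy : f y = 0
        · simp [hy]
        · have hmem := hsupp y hy
          simp only
          have e : -(f y / (x - y)) = f y * (1 / (y - x)) := by
            rw [← neg_sub y x, div_neg, neg_neg, div_eq_mul_one_div]
          rw [e]
          refine mul_le_mul_of_nonneg_left ?_ (hfn y)
          apply one_div_le_one_div_of_le
          · linarith [hmem.1]
          · linarith [hmem.2, h.1]
      have h2 : 0 ≤ -∫ y, f y / (x - y) := le_trans (by positivity) h1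
      have e3 : |1 / Real.pi * ∫ y, f y / (x - y)| = 1 / Real.pi * (-∫ y, f y / (x - y)) := by
        rw [abs_mul, abs_of_pos (by positivity), abs_of_nonpos (by linarith)]
      rw [e3]
      calc m / (2 * Real.pi * L) = 1 / Real.pi * (m * (1 / (2 * L))) := by field_simp
        _ ≤ _ := mul_le_mul_of_nonneg_left h1 (by positivity)
  -- lower bound for the left side
  have h1 : ENNReal.ofReal ((m / (2 * Real.pi * L)) ^ p) * ∫⁻ x in J, ENNReal.ofReal (W x) ≤
      ENNReal.ofReal C * ENNReal.ofReal m := by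
    calc ENNReal.ofReal ((m / (2 * Real.pi * L)) ^ p) * ∫⁻ x in J, ENNReal.ofReal (W x)
        = ∫⁻ x in J, ENNReal.ofReal ((m / (2 * Real.pi * L)) ^ p) * ENNReal.ofReal (W x) := by
          rw [lintegral_const_mul _ hm.ennreal_ofReal]
      _ ≤ ∫⁻ x in J, ENNReal.ofReal (|hilbert f x| ^ p * W x) := by
          refine setLIntegral_mono_ae' hJ (Eventually.of_forall fun x hx => ?_)
          rw [← ENNReal.ofReal_mul (by positivity)]
          apply ENNReal.ofReal_le_ofReal
          exact mul_le_mul_of_nonneg_right (Real.rpow_le_rpow (by positivity) (hlow x hx)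
            (by linarith)) (h0 x)
      _ ≤ wInt p W (hilbert f) := setLIntegral_le_lintegral _ _
      _ ≤ ENNReal.ofReal C * wInt p W f := hC
      _ ≤ ENNReal.ofReal C * ENNReal.ofReal m := mul_le_mul_right hcost _
  have h2 : ENNReal.ofReal m ^ (p - 1) = ENNReal.ofReal ((2 * Real.pi * L) ^ p / m) *
      ENNReal.ofReal ((m / (2 * Real.pi * L)) ^ p) := by
    rw [ENNReal.ofReal_rpow_of_pos hfm, ← ENNReal.ofReal_mul (by positivity)]
    congr 1
    rw [Real.div_rpow hfm.le (by positivity), Real.rpow_sub hfm, Real.rpow_one]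
    have : (2 * Real.pi * L) ^ p ≠ 0 := by positivity
    field_simp
  rw [h2, mul_comm, mul_assoc]
  calc ENNReal.ofReal ((2 * Real.pi * L) ^ p / m) * (ENNReal.ofReal ((m / (2 * Real.pi * L)) ^ p) *
        ∫⁻ x in J, ENNReal.ofReal (W x))
      ≤ ENNReal.ofReal ((2 * Real.pi * L) ^ p / m) * (ENNReal.ofReal C * ENNReal.ofReal m) :=
        mul_le_mul_right h1 _
    _ = ENNReal.ofReal (C * (2 * Real.pi * L) ^ p) := by
        rw [← ENNReal.ofReal_mul hC0, ← ENNReal.ofReal_mul (by positivity)]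
        congr 1
        field_simp

/-- `σ(I)^(p-1) W(J) ≤ C (2π|I|)^p` for neighbouring intervals -/
lemma pair_ineq {p : ℝ} (hp : 1 < p) {W : ℝ → ℝ} (hm : Measurable W) (h0 : ∀ x, 0 ≤ W x)
    (hpos : ∀ᵐ x, 0 < W x) {C : ℝ} (hC0 : 0 ≤ C)
    (hC : ∀ f : ℝ → ℝ, Integrable f → wInt p W (hilbert f) ≤ ENNReal.ofReal C * wInt p W f)
    {a b : ℝ} (hab : a < b) {J : Set ℝ}
    (hJ : MeasurableSet J) (hJs : J ⊆ Ioo b (2 * b - a) ∪ Ioo (2 * a - b) a) :
    (∫⁻ x in J, ENNReal.ofReal (W x)) * (∫⁻ x in Icc a b, ENNReal.ofReal (sig p W x)) ^ (p - 1) ≤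
      ENNReal.ofReal (C * (2 * Real.pi * (b - a)) ^ p) := by
  have hsig : ∀ᵐ x, 0 < sig p W x := by
    filter_upwards [hpos] with x hx using sig_pos hx
  have hvol : volume (Icc a b) ≠ 0 := by simp [hab]
  -- the mass of the dual weight is positive
  have hspos : 0 < ∫⁻ x in Icc a b, ENNReal.ofReal (sig p W x) := by
    rw [pos_iff_ne_zero]
    intro h
    rw [lintegral_eq_zero_iff' (sig_meas hm).ennreal_ofReal.aemeasurable] at h
    have h2 : ∀ᵐ x ∂(volume.restrict (Icc a b)), False := by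
      filter_upwards [h, ae_restrict_of_ae hsig] with x hx hx2
      simp only [Pi.zero_apply, ENNReal.ofReal_eq_zero] at hx
      linarith
    rw [eventually_false_iff_eq_bot, ae_eq_bot, Measure.restrict_eq_zero] at h2
    exact hvol h2
  have htend := tr_tendsto (p := p) hm (measurableSet_Icc (a := a) (b := b))
  have h1 : Tendsto (fun n : ℕ => (∫⁻ x in J, ENNReal.ofReal (W x)) *
      (∫⁻ x, ENNReal.ofReal (tr p W (Icc a b) n x)) ^ (p - 1)) atTop
      (𝓝 ((∫⁻ x in J, ENNReal.ofReal (W x)) *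
        (∫⁻ x in Icc a b, ENNReal.ofReal (sig p W x)) ^ (p - 1))) := by
    refine ENNReal.Tendsto.const_mul ?_ (Or.inl ?_)
    · exact ((ENNReal.continuous_rpow_const (y := p - 1)).tendsto _).comp htend
    · intro h
      rw [ENNReal.rpow_eq_zero_iff] at h
      rcases h with h | h
      · exact hspos.ne' h.1
      · linarith [h.2]
  refine le_of_tendsto h1 ?_
  have hev : ∀ᶠ n : ℕ in atTop, 0 < ∫⁻ x, ENNReal.ofReal (tr p W (Icc a b) n x) :=
    htend.eventually (lt_mem_nhds hspos)
  filter_upwards [hev] with n hn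
  have hint := tr_int (p := p) hm h0 (measurableSet_Icc (a := a) (b := b)) (by simp) n
  refine test_ineq hp hm h0 hC0 hab hint (tr_nonneg h0 _ n) ?_ hJ hJs ?_ (hC _ hint)
    (wInt_tr_le hp h0 hpos _ n)
  · intro x hx
    unfold tr
    rw [indicator_of_notMem hx]
  · have h2 : ∫⁻ x, ENNReal.ofReal (tr p W (Icc a b) n x) =
        ENNReal.ofReal (∫ x, tr p W (Icc a b) n x) :=
      (ofReal_integral_eq_lintegral_ofReal hint (Eventually.of_forall (tr_nonneg h0 _ n))).symm
    rw [h2] at hn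
    exact ENNReal.ofReal_pos.mp hn

/-- Hölder: `|I|^p ≤ W(I) σ(I)^(p-1)` -/
lemma holder_lower {p : ℝ} (hp : 1 < p) {W : ℝ → ℝ} (hm : Measurable W)
    (hpos : ∀ᵐ x, 0 < W x) {a b : ℝ} (hab : a < b) :
    ENNReal.ofReal ((b - a) ^ p) ≤ (∫⁻ x in Icc a b, ENNReal.ofReal (W x)) *
      (∫⁻ x in Icc a b, ENNReal.ofReal (sig p W x)) ^ (p - 1) := by
  have hp0 : 0 < p := by linarith
  have hpq : p.HolderConjugate (p / (p - 1)) := Real.HolderConjugate.conjExponent hp
  have h1 := ENNReal.lintegral_mul_le_Lp_mul_Lq (volume.restrict (Icc a b)) hpq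
    (f := fun x => ENNReal.ofReal (W x) ^ (1 / p))
    (g := fun x => ENNReal.ofReal (sig p W x) ^ ((p - 1) / p))
    ((hm.ennreal_ofReal.pow_const _).aemeasurable)
    (((sig_meas hm).ennreal_ofReal.pow_const _).aemeasurable)
  have h2 : ∫⁻ x in Icc a b, (((fun x => ENNReal.ofReal (W x) ^ (1 / p)) *
      (fun x => ENNReal.ofReal (sig p W x) ^ ((p - 1) / p))) x) = ENNReal.ofReal (b - a) := by
    have : ∫⁻ x in Icc a b, (((fun x => ENNReal.ofReal (W x) ^ (1 / p)) *
      (fun x => ENNReal.ofReal (sig p W x) ^ ((p - 1) / p))) x) = ∫⁻ x in Icc a b, 1 := by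
      refine lintegral_congr_ae ?_
      filter_upwards [ae_restrict_of_ae hpos] with x hx
      simp only [Pi.mul_apply]
      have hs := sig_pos (p := p) hx
      rw [ENNReal.ofReal_rpow_of_pos hx, ENNReal.ofReal_rpow_of_pos hs, ← ENNReal.ofReal_mul
        (Real.rpow_nonneg hx.le _), ← ENNReal.ofReal_one]
      congr 1
      have e : sig p W x ^ ((p - 1) / p) = (sig p W x ^ (p - 1)) ^ (1 / p) := by
        rw [← Real.rpow_mul hs.le]
        congr 1
        ring
      rw [e, ← Real.mul_rpow hx.le (Real.rpow_nonneg hs.le _), mul_comm, sig_pow hp hx,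
        Real.one_rpow]
    rw [this]
    simp
  rw [h2] at h1
  simp only [← ENNReal.rpow_mul] at h1
  have e1 : 1 / p * p = 1 := by field_simp
  have e2 : (p - 1) / p * (p / (p - 1)) = 1 := by
    have : p - 1 ≠ 0 := by linarith
    field_simp
  rw [e1, e2] at h1
  simp only [ENNReal.rpow_one] at h1
  have h3 := ENNReal.rpow_le_rpow h1 hp0.le
  rw [ENNReal.mul_rpow_of_nonneg _ _ hp0.le, ← ENNReal.rpow_mul, ← ENNReal.rpow_mul, e1,
    ENNReal.rpow_one, ENNReal.ofReal_rpow_of_pos (by linarith)] at h3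
  have e3 : 1 / (p / (p - 1)) * p = p - 1 := by
    have : p - 1 ≠ 0 := by linarith
    field_simp
  rw [e3] at h3
  exact h3

lemma mass_pos {g : ℝ → ℝ} (hm : Measurable g) (hpos : ∀ᵐ x, 0 < g x) {a b : ℝ} (hab : a < b) :
    0 < ∫⁻ x in Ioo a b, ENNReal.ofReal (g x) := by
  rw [pos_iff_ne_zero]
  intro h
  rw [lintegral_eq_zero_iff' hm.ennreal_ofReal.aemeasurable] at h
  have h2 : ∀ᵐ x ∂(volume.restrict (Ioo a b)), False := by
    filter_upwards [h, ae_restrict_of_ae hpos] with x hx hx2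
    simp only [Pi.zero_apply, ENNReal.ofReal_eq_zero] at hx
    linarith
  rw [eventually_false_iff_eq_bot, ae_eq_bot, Measure.restrict_eq_zero] at h2
  have : volume (Ioo a b) ≠ 0 := by simp [hab]
  exact this h2

/-- The Hilbert transform bounded on `L^p(W)` implies `W ∈ A_p`. -/
theorem isAp_of_bounded {p : ℝ} (hp : 1 < p) {W : ℝ → ℝ} (hm : Measurable W)
    (h0 : ∀ x, 0 ≤ W x) (hne : ¬ W =ᵐ[volume] 0) (hW : HilbertBounded p W) : IsAp p W := by
  have hpos := pos_ae (by linarith : 0 < p) hm h0 hne hW.admissible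
  obtain ⟨C', hC'⟩ := hW
  obtain ⟨C, hC0, hC⟩ : ∃ C : ℝ, 0 ≤ C ∧ ∀ f : ℝ → ℝ, Integrable f →
      wInt p W (hilbert f) ≤ ENNReal.ofReal C * wInt p W f := by
    refine ⟨max C' 0, le_max_right _ _, fun f hf => (hC' f hf).trans ?_⟩
    exact mul_le_mul_left (ENNReal.ofReal_le_ofReal (le_max_left _ _)) _
  have hspos : ∀ᵐ x, 0 < sig p W x := by
    filter_upwards [hpos] with x hx using sig_pos hx
  have hp1 : 0 < p - 1 := by linarith
  have hpi := Real.pi_pos
  -- notation
  set w : ℝ → ℝ → ENNReal := fun a b => ∫⁻ x in Icc a b, ENNReal.ofReal (W x) with hw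
  set s : ℝ → ℝ → ENNReal := fun a b => ∫⁻ x in Icc a b, ENNReal.ofReal (sig p W x) with hs
  have hwI : ∀ a b, w a b = ∫⁻ x in Ioo a b, ENNReal.ofReal (W x) := fun a b =>
    setLIntegral_congr Ioo_ae_eq_Icc.symm
  have hsI : ∀ a b, s a b = ∫⁻ x in Ioo a b, ENNReal.ofReal (sig p W x) := fun a b =>
    setLIntegral_congr Ioo_ae_eq_Icc.symm
  have hwpos : ∀ a b, a < b → 0 < w a b := fun a b hab => by
    rw [hwI]; exact mass_pos hm hpos hab
  have hspos' : ∀ a b, a < b → 0 < s a b := fun a b hab => by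
    rw [hsI]; exact mass_pos (sig_meas hm) hspos hab
  set K : ℝ → ℝ := fun L => C * (2 * Real.pi * L) ^ p with hK
  have hR : ∀ a b, a < b → w b (2 * b - a) * s a b ^ (p - 1) ≤ ENNReal.ofReal (K (b - a)) := by
    intro a b hab
    rw [hwI b (2 * b - a)]
    exact pair_ineq hp hm h0 hpos hC0 hC hab measurableSet_Ioo subset_union_left
  have hL : ∀ a b, a < b → w (2 * a - b) a * s a b ^ (p - 1) ≤ ENNReal.ofReal (K (b - a)) := by
    intro a b hab
    rw [hwI (2 * a - b) a]
    exact pair_ineq hp hm h0 hpos hC0 hC hab measurableSet_Ioo subset_union_right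
  -- finiteness
  have hsfin : ∀ a b, a < b → s a b ≠ ⊤ := by
    intro a b hab h
    have h1 := hR a b hab
    rw [h, ENNReal.top_rpow_of_pos hp1, ENNReal.mul_top (hwpos _ _ (by linarith)).ne'] at h1
    exact absurd h1 (not_le.mpr ENNReal.ofReal_lt_top)
  have hwfin : ∀ a b, a < b → w a b ≠ ⊤ := by
    intro a b hab h
    have h1 := hR (2 * a - b) a (by linarith)
    have e : 2 * a - (2 * a - b) = b := by ring
    rw [e, h, ENNReal.top_mul] at h1
    · exact absurd h1 (not_le.mpr ENNReal.ofReal_lt_top)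
    · exact (ENNReal.rpow_pos (hspos' _ _ (by linarith)) (hsfin _ _ (by linarith))).ne'
  -- local integrability
  have hlocW : ∀ a b, a < b → IntegrableOn W (Icc a b) := by
    intro a b hab
    refine ⟨hm.aestronglyMeasurable, ?_⟩
    rw [hasFiniteIntegral_iff_ofReal (Eventually.of_forall h0)]
    exact (hwfin a b hab).lt_top
  have hlocS : ∀ a b, a < b → IntegrableOn (sig p W) (Icc a b) := by
    intro a b hab
    refine ⟨(sig_meas hm).aestronglyMeasurable, ?_⟩
    rw [hasFiniteIntegral_iff_ofReal (Eventually.of_forall (sig_nonneg h0))]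
    exact (hsfin a b hab).lt_top
  have hloc : ∀ g : ℝ → ℝ, (∀ a b, a < b → IntegrableOn g (Icc a b)) → LocallyIntegrable g := by
    intro g hg x
    exact ⟨Icc (x - 1) (x + 1), Icc_mem_nhds (by linarith) (by linarith),
      hg _ _ (by linarith)⟩
  refine ⟨⟨hm, h0, hloc W hlocW, hne⟩, hpos, hloc _ hlocS, ?_⟩
  -- the main inequality, in the extended reals
  have hmain : ∀ a b, a < b → w a b * s a b ^ (p - 1) ≤
      ENNReal.ofReal ((C * (2 * Real.pi) ^ p) ^ 2 * (b - a) ^ p) := by
    intro a b hab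
    set L := b - a with hLdef
    have hLpos : 0 < L := by rw [hLdef]; linarith
    -- J = [b, b + L]
    have hJ : b < 2 * b - a := by linarith
    have h1 := hR a b hab
    have h2 := hL b (2 * b - a) hJ
    have e2 : 2 * b - (2 * b - a) = a := by ring
    have e3 : 2 * b - a - b = L := by rw [hLdef]; ring
    rw [e2, e3] at h2
    have h3 := holder_lower hp hm hpos hJ
    rw [e3] at h3
    -- now real numbers
    have hw1 := hwfin a b hab
    have hs1 := hsfin a b hab
    have hw2 := hwfin _ _ hJ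
    have hs2 := hsfin _ _ hJ
    lift w a b to NNReal using hw1 with wI hwI'
    lift s a b to NNReal using hs1 with sI hsI'
    change ENNReal.ofReal (L ^ p) ≤ w b (2 * b - a) * s b (2 * b - a) ^ (p - 1) at h3
    have hwJp := hwpos _ _ hJ
    have hsJp := hspos' _ _ hJ
    lift w b (2 * b - a) to NNReal using hw2 with wJ hwJ'
    lift s b (2 * b - a) to NNReal using hs2 with sJ hsJ'
    have hLp : 0 < L ^ p := Real.rpow_pos_of_pos hLpos p
    have toR : ∀ u v : NNReal, (u : ENNReal) * (v : ENNReal) ^ (p - 1) =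
        ENNReal.ofReal ((u : ℝ) * (v : ℝ) ^ (p - 1)) := by
      intro u v
      rw [← ENNReal.coe_rpow_of_nonneg _ hp1.le, ← ENNReal.coe_mul, ← ENNReal.ofReal_coe_nnreal]
      congr 1
    rw [toR] at h1 h2 h3 ⊢
    have h1' := (ENNReal.ofReal_le_ofReal_iff (by positivity)).mp h1
    have h2' := (ENNReal.ofReal_le_ofReal_iff (by positivity)).mp h2
    have h3' := (ENNReal.ofReal_le_ofReal_iff (by positivity)).mp h3
    apply ENNReal.ofReal_le_ofReal
    have hK' : K L = C * (2 * Real.pi) ^ p * L ^ p := by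
      simp only [hK]
      rw [Real.mul_rpow (by positivity) hLpos.le]
      ring
    rw [hK'] at h1' h2'
    have hsJpos : (0 : ℝ) < (sJ : ℝ) ^ (p - 1) := Real.rpow_pos_of_pos (by exact_mod_cast hsJp) _
    have hsI0 : (0 : ℝ) ≤ (sI : ℝ) ^ (p - 1) := Real.rpow_nonneg sI.2 _
    set D := C * (2 * Real.pi) ^ p with hD
    have hD0 : 0 ≤ D := by positivity
    -- wI ≤ D wJ
    have h4 : (wI : ℝ) ≤ D * wJ := by
      by_contra hcon
      push Not at hcon
      have : D * wJ * (sJ : ℝ) ^ (p - 1) < wI * (sJ : ℝ) ^ (p - 1) :=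
        mul_lt_mul_of_pos_right hcon hsJpos
      nlinarith [mul_le_mul_of_nonneg_left h3' hD0]
    calc (wI : ℝ) * (sI : ℝ) ^ (p - 1) ≤ D * wJ * (sI : ℝ) ^ (p - 1) :=
          mul_le_mul_of_nonneg_right h4 hsI0
      _ = D * (wJ * (sI : ℝ) ^ (p - 1)) := by ring
      _ ≤ D * (D * L ^ p) := mul_le_mul_of_nonneg_left h1' hD0
      _ = D ^ 2 * L ^ p := by ring
  refine ⟨(C * (2 * Real.pi) ^ p) ^ 2, fun a b hab => ?_⟩
  have hLpos : 0 < b - a := by linarith
  have h1 := hmain a b hab
  have ew : w a b = ENNReal.ofReal (∫ x in a..b, W x) := by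
    rw [intervalIntegral.integral_of_le hab.le, ← integral_Icc_eq_integral_Ioc,
      ofReal_integral_eq_lintegral_ofReal (hlocW a b hab) (Eventually.of_forall h0)]
  have es : s a b = ENNReal.ofReal (∫ x in a..b, sig p W x) := by
    rw [intervalIntegral.integral_of_le hab.le, ← integral_Icc_eq_integral_Ioc,
      ofReal_integral_eq_lintegral_ofReal (hlocS a b hab) (Eventually.of_forall (sig_nonneg h0))]
  have hw0 : 0 ≤ ∫ x in a..b, W x := intervalIntegral.integral_nonneg hab.le fun x _ => h0 x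
  have hs0 : 0 ≤ ∫ x in a..b, sig p W x :=
    intervalIntegral.integral_nonneg hab.le fun x _ => sig_nonneg h0 x
  rw [ew, es, ENNReal.ofReal_rpow_of_nonneg hs0 hp1.le, ← ENNReal.ofReal_mul hw0,
    ENNReal.ofReal_le_ofReal_iff (by positivity)] at h1
  change ((b - a)⁻¹ * ∫ x in a..b, W x) * ((b - a)⁻¹ * ∫ x in a..b, sig p W x) ^ (p - 1) ≤ _
  rw [Real.mul_rpow (by positivity) hs0]
  have hLp : 0 < (b - a) ^ p := Real.rpow_pos_of_pos hLpos p
  have e : (b - a)⁻¹ * (b - a)⁻¹ ^ (p - 1) = ((b - a) ^ p)⁻¹ := by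
    rw [Real.inv_rpow hLpos.le, Real.rpow_sub hLpos, Real.rpow_one]
    field_simp
  calc (b - a)⁻¹ * (∫ x in a..b, W x) * ((b - a)⁻¹ ^ (p - 1) * (∫ x in a..b, sig p W x) ^ (p - 1))
      = ((b - a)⁻¹ * (b - a)⁻¹ ^ (p - 1)) *
        ((∫ x in a..b, W x) * (∫ x in a..b, sig p W x) ^ (p - 1)) := by ring
    _ ≤ ((b - a)⁻¹ * (b - a)⁻¹ ^ (p - 1)) * ((C * (2 * Real.pi) ^ p) ^ 2 * (b - a) ^ p) := by
        refine mul_le_mul_of_nonneg_left h1 ?_
        rw [e]
        positivity
    _ = (C * (2 * Real.pi) ^ p) ^ 2 := by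
        rw [e]
        field_simp

end Pool.Agent.V8H55.HW
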