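import Pool.Agent.V8H55.HW.Defs

set_option autoImplicit false

open MeasureTheory Filter Topology Set

namespace Pool.Agent.V8H55.HW

/-- the truncated kernel -/
noncomputable def ker (δ t : ℝ) : ℝ := if δ < |t| then 1 / t else 0

lemma ker_abs_le {δ : ℝ} (hδ : 0 < δ) (t : ℝ) : |ker δ t| ≤ 1 / δ := by
  unfold ker
  split_ifs with h
  · rw [abs_div, abs_one]
    exact one_div_le_one_div_of_le hδ h.le
  · simp [hδ.le]

lemma ker_meas : Measurable (fun q : ℝ × ℝ => ker q.1 q.2) := by
  unfold ker
  refine Measurable.ite ?_ ?_ measurable_const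
  · exact measurableSet_lt measurable_fst (measurable_snd.abs)
  · exact (measurable_const.div measurable_snd)

lemma ker_meas' (δ : ℝ) : Measurable (ker δ) := ker_meas.comp (measurable_const.prodMk measurable_id)

lemma truncH_eq (f : ℝ → ℝ) (δ x : ℝ) : truncH f δ x = ∫ y, f y * ker δ (x - y) := by
  unfold truncH
  have hs : MeasurableSet {y : ℝ | δ < |y - x|} :=
    measurableSet_lt measurable_const ((measurable_id.sub_const x).abs)
  rw [← integral_indicator hs]
  refine integral_congr_ae (Eventually.of_forall fun y => ?_)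
  simp only [indicator, mem_ofPred_eq, ker, abs_sub_comm x y]
  split_ifs <;> ring

lemma int_ker {f : ℝ → ℝ} (hf : Integrable f) {δ : ℝ} (hδ : 0 < δ) (x : ℝ) :
    Integrable (fun y => f y * ker δ (x - y)) := by
  refine Integrable.mul_bdd (c := 1 / δ) hf ?_ ?_
  · exact ((ker_meas' δ).comp (measurable_const.sub measurable_id)).aestronglyMeasurable
  · exact Eventually.of_forall fun y => by rw [Real.norm_eq_abs]; exact ker_abs_le hδ _

lemma truncH_congr {f g : ℝ → ℝ} (h : f =ᵐ[volume] g) (δ x : ℝ) : truncH f δ x = truncH g δ x := by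
  rw [truncH_eq, truncH_eq]
  refine integral_congr_ae ?_
  filter_upwards [h] with y hy
  rw [hy]

lemma truncH_measurable {f : ℝ → ℝ} (hf : Integrable f) (δ : ℝ) :
    Measurable (fun x => truncH f δ x) := by
  have h1 : (fun x => truncH f δ x) = fun x => ∫ y, (hf.1.mk f) y * ker δ (x - y) := by
    funext x
    rw [truncH_congr hf.1.ae_eq_mk, truncH_eq]
  rw [h1]
  have h2 : StronglyMeasurable (fun q : ℝ × ℝ => (hf.1.mk f) q.2 * ker δ (q.1 - q.2)) := by
    apply Measurable.stronglyMeasurable
    exact (hf.1.stronglyMeasurable_mk.measurable.comp measurable_snd).mul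
      ((ker_meas' δ).comp (measurable_fst.sub measurable_snd))
  exact (h2.integral_prod_right).measurable

lemma truncH_continuousAt {f : ℝ → ℝ} (hf : Integrable f) (x : ℝ) {δ : ℝ} (hδ : 0 < δ) :
    ContinuousAt (fun δ => truncH f δ x) δ := by
  simp only [truncH_eq]
  refine continuousAt_of_dominated (bound := fun y => |f y| * (2 / δ)) ?_ ?_ ?_ ?_
  · filter_upwards [eventually_gt_nhds hδ] with δ' hδ'
    exact (int_ker hf hδ' x).1
  · filter_upwards [eventually_gt_nhds (show δ / 2 < δ by linarith)] with δ' hδ'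
    refine Eventually.of_forall fun y => ?_
    have h0 : 0 < δ' := by linarith
    rw [Real.norm_eq_abs, abs_mul]
    refine mul_le_mul_of_nonneg_left ((ker_abs_le h0 _).trans ?_) (abs_nonneg _)
    rw [div_le_div_iff₀ h0 hδ]
    linarith
  · exact hf.abs.mul_const _
  · have h1 : ∀ᵐ y : ℝ, y ≠ x - δ := by
      simp [ae_iff, measure_singleton]
    have h2 : ∀ᵐ y : ℝ, y ≠ x + δ := by
      simp [ae_iff, measure_singleton]
    filter_upwards [h1, h2] with y hy1 hy2
    refine ContinuousAt.mul continuousAt_const ?_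
    have hne : |x - y| ≠ δ := by
      intro h
      rcases abs_eq hδ.le |>.mp h with h | h
      · exact hy1 (by linarith)
      · exact hy2 (by linarith)
    rcases lt_or_gt_of_ne hne with h | h
    · have : (fun δ' => ker δ' (x - y)) =ᶠ[𝓝 δ] fun _ => 0 := by
        filter_upwards [eventually_gt_nhds h] with δ' hδ'
        unfold ker
        rw [if_neg (not_lt.mpr hδ'.le)]
      exact this.continuousAt
    · have : (fun δ' => ker δ' (x - y)) =ᶠ[𝓝 δ] fun _ => 1 / (x - y) := by
        filter_upwards [eventually_lt_nhds h] with δ' hδ'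
        unfold ker
        rw [if_pos hδ']
      exact this.continuousAt

lemma HasPV.unique {f : ℝ → ℝ} {x l l' : ℝ} (h : HasPV f x l) (h' : HasPV f x l') : l = l' :=
  tendsto_nhds_unique h h'

lemma hilbert_eq {f : ℝ → ℝ} {x l : ℝ} (h : HasPV f x l) : hilbert f x = (1 / Real.pi) * l := by
  unfold hilbert
  have he : ∃ l, HasPV f x l := ⟨l, h⟩
  rw [dif_pos he, he.choose_spec.unique h]

lemma hilbert_of_not {f : ℝ → ℝ} {x : ℝ} (h : ¬ ∃ l, HasPV f x l) : hilbert f x = 0 := by
  unfold hilbert
  rw [dif_neg h]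

lemma HasPV.congr {f g : ℝ → ℝ} (h : f =ᵐ[volume] g) {x l : ℝ} (hf : HasPV f x l) : HasPV g x l := by
  unfold HasPV at hf ⊢
  simpa [truncH_congr h] using hf

lemma HasPV.add_mul {f g : ℝ → ℝ} (hf : Integrable f) (hg : Integrable g) {x l m : ℝ}
    (h1 : HasPV f x l) (h2 : HasPV g x m) (c : ℝ) :
    HasPV (fun y => f y + c * g y) x (l + c * m) := by
  unfold HasPV at *
  refine Tendsto.congr' ?_ (h1.add (h2.const_mul c))
  filter_upwards [self_mem_nhdsWithin] with δ hδ
  have hδ : 0 < δ := hδ
  rw [truncH_eq, truncH_eq, truncH_eq, ← integral_const_mul, ← integral_add (int_ker hf hδ x)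
    ((int_ker hg hδ x).const_mul c)]
  refine integral_congr_ae (Eventually.of_forall fun y => ?_)
  simp only
  ring

/-- real limit exists iff rational limit exists -/
lemma hasPV_iff_rat {f : ℝ → ℝ} (hf : Integrable f) (x l : ℝ) :
    HasPV f x l ↔ Tendsto (fun q : ℚ => truncH f (q : ℝ) x)
      (comap (fun q : ℚ => (q : ℝ)) (𝓝[>] 0)) (𝓝 l) := by
  constructor
  · intro h
    exact h.comp tendsto_comap
  · intro h
    unfold HasPV
    rw [Metric.tendsto_nhds] at h ⊢
    intro ε hε
    have h1 := h (ε / 2) (by positivity)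
    rw [eventually_comap] at h1
    obtain ⟨u, hu, hu'⟩ := mem_nhdsGT_iff_exists_Ioo_subset.mp h1
    have hu : 0 < u := hu
    filter_upwards [Ioo_mem_nhdsGT hu] with δ hδ
    have hcl : dist (truncH f δ x) l ≤ ε / 2 := by
      have hc := truncH_continuousAt hf x hδ.1
      have hcl : IsClosed {t : ℝ | dist t l ≤ ε / 2} := isClosed_le (by fun_prop) continuous_const
      by_contra hcon
      have hmem : truncH f δ x ∈ {t : ℝ | dist t l ≤ ε / 2}ᶜ := hcon
      have hev := hc.eventually (hcl.isOpen_compl.mem_nhds hmem)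
      have hev2 : ∀ᶠ δ' in 𝓝 δ, δ' ∈ Ioo (0 : ℝ) u := Ioo_mem_nhds hδ.1 hδ.2
      obtain ⟨v, hv, hvo, hvm⟩ := eventually_nhds_iff.mp (hev.and hev2)
      obtain ⟨q, hq⟩ := Rat.denseRange_cast (𝕜 := ℝ) |>.exists_mem_open hvo ⟨δ, hvm⟩
      have h2 := hv _ hq
      have h3 := hu' h2.2 q rfl
      exact h2.1 (le_of_lt h3)
    linarith

lemma measurableSet_hasPV {f : ℝ → ℝ} (hf : Integrable f) :
    MeasurableSet {x | ∃ l, HasPV f x l} := by
  have h := measurableSet_exists_tendsto (γ := ℝ) (l := comap (fun q : ℚ => (q : ℝ)) (𝓝[>] 0))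
    (f := fun (q : ℚ) x => truncH f (q : ℝ) x) (fun q => truncH_measurable hf _)
  have e : {x | ∃ l, HasPV f x l} = {x | ∃ c, Tendsto (fun q : ℚ => truncH f (q : ℝ) x)
      (comap (fun q : ℚ => (q : ℝ)) (𝓝[>] 0)) (𝓝 c)} := by
    ext x
    exact exists_congr fun l => hasPV_iff_rat hf x l
  rw [e]
  exact h

lemma hilbert_measurable {f : ℝ → ℝ} (hf : Integrable f) : Measurable (hilbert f) := by
  have hseq : Tendsto (fun n : ℕ => 1 / ((n : ℝ) + 1)) atTop (𝓝[>] 0) := by
    rw [tendsto_nhdsWithin_iff]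
    exact ⟨tendsto_one_div_add_atTop_nhds_zero_nat, Eventually.of_forall fun n => by
      show (0 : ℝ) < _
      positivity⟩
  refine measurable_of_tendsto_metrizable (f := fun n x =>
    indicator {x | ∃ l, HasPV f x l} (fun x => (1 / Real.pi) * truncH f (1 / ((n : ℝ) + 1)) x) x)
    (fun n => ((truncH_measurable hf _).const_mul _).indicator (measurableSet_hasPV hf)) ?_
  rw [tendsto_pi_nhds]
  intro x
  by_cases h : ∃ l, HasPV f x l
  · obtain ⟨l, hl⟩ := h
    have e : ∀ n : ℕ, indicator {x | ∃ l, HasPV f x l}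
        (fun x => (1 / Real.pi) * truncH f (1 / ((n : ℝ) + 1)) x) x =
        (1 / Real.pi) * truncH f (1 / ((n : ℝ) + 1)) x := by
      intro n
      rw [indicator_of_mem]
      exact ⟨l, hl⟩
    simp only [e]
    rw [hilbert_eq hl]
    exact (hl.comp hseq).const_mul _
  · have e : ∀ n : ℕ, indicator {x | ∃ l, HasPV f x l}
        (fun x => (1 / Real.pi) * truncH f (1 / ((n : ℝ) + 1)) x) x = 0 := by
      intro n
      rw [indicator_of_notMem]
      exact h
    simp only [e]
    rw [hilbert_of_not h]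
    exact tendsto_const_nhds

/-- if `g` vanishes near `x` the principal value is an ordinary integral -/
lemma hasPV_of_vanish {g : ℝ → ℝ} {x r : ℝ} (hr : 0 < r)
    (h : ∀ᵐ y, |y - x| < r → g y = 0) : HasPV g x (∫ y, g y / (x - y)) := by
  unfold HasPV
  refine Tendsto.congr' ?_ tendsto_const_nhds
  filter_upwards [Ioo_mem_nhdsGT hr] with δ hδ
  rw [truncH_eq]
  refine integral_congr_ae ?_
  filter_upwards [h] with y hy
  simp only [ker]
  split_ifs with h1
  · ring
  · rw [not_lt, abs_sub_comm] at h1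
    rw [hy (lt_of_le_of_lt h1 hδ.2)]
    simp

lemma int_vanish {g : ℝ → ℝ} (hg : Integrable g) {x r : ℝ} (hr : 0 < r)
    (h : ∀ᵐ y, |y - x| < r → g y = 0) : Integrable (fun y => g y / (x - y)) := by
  refine (int_ker hg (half_pos hr) x).congr ?_
  filter_upwards [h] with y hy
  simp only [ker]
  split_ifs with h1
  · ring
  · rw [not_lt, abs_sub_comm] at h1
    rw [hy (lt_of_le_of_lt h1 (by linarith))]
    simp

/-- the mass outside of a shrinking interval tends to the total mass -/
lemma tendsto_mass {f : ℝ → ℝ} (hf : Integrable f) (x : ℝ) :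
    Tendsto (fun δ : ℝ => ∫ y in {y : ℝ | δ < |y - x|}, f y) (𝓝[>] 0) (𝓝 (∫ y, f y)) := by
  have hs : ∀ δ : ℝ, MeasurableSet {y : ℝ | δ < |y - x|} := fun δ =>
    measurableSet_lt measurable_const ((measurable_id.sub_const x).abs)
  have e : ∀ δ : ℝ, ∫ y in {y : ℝ | δ < |y - x|}, f y =
      ∫ y, indicator {y : ℝ | δ < |y - x|} f y := fun δ => (integral_indicator (hs δ)).symm
  simp only [e]
  refine tendsto_integral_filter_of_dominated_convergence (fun y => ‖f y‖) ?_ ?_ hf.norm ?_
  · exact Eventually.of_forall fun δ => hf.1.indicator (hs δ)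
  · exact Eventually.of_forall fun δ => Eventually.of_forall fun y => norm_indicator_le_norm_self _ _
  · have h1 : ∀ᵐ y : ℝ, y ≠ x := by simp [ae_iff, measure_singleton]
    filter_upwards [h1] with y hy
    have hpos : 0 < |y - x| := abs_pos.mpr (sub_ne_zero.mpr hy)
    refine Tendsto.congr' ?_ tendsto_const_nhds
    filter_upwards [Ioo_mem_nhdsGT hpos] with δ hδ
    rw [indicator_of_mem]
    exact hδ.2

/-- multiplication by `y - a` -/
lemma truncH_mul {f : ℝ → ℝ} {a : ℝ} (hf : Integrable f) (hyf : Integrable (fun y => (y - a) * f y))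
    (x : ℝ) {δ : ℝ} (hδ : 0 < δ) :
    (x - a) * truncH f δ x =
      (∫ y in {y : ℝ | δ < |y - x|}, f y) + truncH (fun y => (y - a) * f y) δ x := by
  have hs : MeasurableSet {y : ℝ | δ < |y - x|} :=
    measurableSet_lt measurable_const ((measurable_id.sub_const x).abs)
  rw [← integral_indicator hs, truncH_eq, truncH_eq, ← integral_const_mul,
    ← integral_add (hf.indicator hs) (int_ker hyf hδ x)]
  refine integral_congr_ae (Eventually.of_forall fun y => ?_)
  simp only [indicator, mem_ofPred_eq, ker, abs_sub_comm x y]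
  split_ifs with h
  · have hne : x - y ≠ 0 := by
      intro h0
      have : |y - x| = 0 := by rw [abs_sub_comm, h0, abs_zero]
      linarith
    field_simp
    ring
  · ring

lemma hasPV_mul {f : ℝ → ℝ} {a : ℝ} (hf : Integrable f)
    (hyf : Integrable (fun y => (y - a) * f y)) {x l : ℝ}
    (h : HasPV f x l) : HasPV (fun y => (y - a) * f y) x ((x - a) * l - ∫ y, f y) := by
  unfold HasPV at h ⊢
  refine Tendsto.congr' ?_ ((h.const_mul (x - a)).sub (tendsto_mass hf x))
  filter_upwards [self_mem_nhdsWithin] with δ hδ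
  rw [truncH_mul hf hyf x hδ]
  ring

lemma hasPV_of_mul {f : ℝ → ℝ} {a : ℝ} (hf : Integrable f)
    (hyf : Integrable (fun y => (y - a) * f y)) {x l : ℝ}
    (hx : x ≠ a) (h : HasPV (fun y => (y - a) * f y) x l) :
    HasPV f x ((l + ∫ y, f y) / (x - a)) := by
  unfold HasPV at h ⊢
  refine Tendsto.congr' ?_ ((h.add (tendsto_mass hf x)).div_const (x - a))
  filter_upwards [self_mem_nhdsWithin] with δ hδ
  rw [div_eq_iff (sub_ne_zero.mpr hx)]
  have := truncH_mul hf hyf x hδ
  linarith

/-- adding a function which vanishes near `x` -/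
lemma HasPV.add_vanish {f g : ℝ → ℝ} (hf : Integrable f) (hg : Integrable g) {x l r : ℝ}
    (h1 : HasPV f x l) (hr : 0 < r) (h : ∀ᵐ y, |y - x| < r → g y = 0) (c : ℝ) :
    HasPV (fun y => f y + c * g y) x (l + c * ∫ y, g y / (x - y)) :=
  h1.add_mul hf hg (hasPV_of_vanish hr h) c

/-- a bound for the principal value away from the support -/
lemma abs_pv_le {g : ℝ → ℝ} (hg : Integrable g) {x r : ℝ} (hr : 0 < r)
    (h : ∀ y, g y ≠ 0 → r ≤ |x - y|) : |∫ y, g y / (x - y)| ≤ (∫ y, |g y|) / r := by
  rw [← integral_div]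
  refine (abs_integral_le_integral_abs).trans ?_
  refine integral_mono_of_nonneg (Eventually.of_forall fun y => abs_nonneg _)
    (hg.abs.div_const r) (Eventually.of_forall fun y => ?_)
  simp only
  rw [abs_div]
  by_cases hy : g y = 0
  · simp [hy]
  · have h1 := h y hy
    exact div_le_div_of_nonneg_left (abs_nonneg _) hr h1

end Pool.Agent.V8H55.HW
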