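import Pool.Agent.V8H55.HW.Cases

set_option autoImplicit false

open MeasureTheory Filter Topology Set

namespace Pool.Agent.V8H55.HW

/-- density on `[8,9]` -/
noncomputable def g1 : ℝ → ℝ := indicator (Icc 8 9) (fun _ => 1)

/-- density on `[-1,1]` -/
noncomputable def g0 : ℝ → ℝ := indicator (Icc (-1) 1) (fun _ => 1 / 2)

lemma g1_int : Integrable g1 := by
  unfold g1
  rw [integrable_indicator_iff measurableSet_Icc]
  exact integrableOn_const (by simp)

lemma g0_int : Integrable g0 := by
  unfold g0
  rw [integrable_indicator_iff measurableSet_Icc]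
  exact integrableOn_const (by simp)

lemma g1_mass : ∫ x, g1 x = 1 := by
  unfold g1
  rw [integral_indicator measurableSet_Icc]
  simp [Measure.real]
  norm_num

lemma g0_mass : ∫ x, g0 x = 1 := by
  unfold g0
  rw [integral_indicator measurableSet_Icc]
  simp [Measure.real]
  norm_num

lemma g1_nonneg (x : ℝ) : 0 ≤ g1 x := by
  unfold g1
  exact indicator_nonneg (fun _ _ => zero_le_one) x

lemma g0_nonneg (x : ℝ) : 0 ≤ g0 x := by
  unfold g0
  exact indicator_nonneg (fun _ _ => by norm_num) x

lemma g1_supp {x : ℝ} (h : g1 x ≠ 0) : 8 ≤ x ∧ x ≤ 9 := by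
  unfold g1 at h
  by_contra hcon
  have hcon' : x ∉ Icc (8 : ℝ) 9 := hcon
  exact h (indicator_of_notMem hcon' _)

lemma g0_supp {x : ℝ} (h : g0 x ≠ 0) : -1 ≤ x ∧ x ≤ 1 := by
  unfold g0 at h
  by_contra hcon
  have hcon' : x ∉ Icc (-1 : ℝ) 1 := hcon
  exact h (indicator_of_notMem hcon' _)

lemma g1_abs_mass : ∫ x, |g1 x| = 1 := by
  rw [← g1_mass]
  exact integral_congr_ae (Eventually.of_forall fun y => abs_of_nonneg (g1_nonneg y))

lemma g0_abs_mass : ∫ x, |g0 x| = 1 := by
  rw [← g0_mass]
  exact integral_congr_ae (Eventually.of_forall fun y => abs_of_nonneg (g0_nonneg y))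

lemma wInt_lt_top {p : ℝ} (hp : 0 < p) {U g : ℝ → ℝ} (hU : IsWeight U) {a b : ℝ}
    (hg : ∀ x, |g x| ≤ indicator (Icc a b) (fun _ => (1 : ℝ)) x) : wInt p U g < ⊤ := by
  have h1 : IntegrableOn U (Icc a b) := hU.loc.integrableOn_isCompact isCompact_Icc
  have h2 : ∫⁻ x in Icc a b, ENNReal.ofReal (U x) < ⊤ := by
    have := h1.2
    rwa [hasFiniteIntegral_iff_ofReal (Eventually.of_forall hU.nonneg)] at this
  refine lt_of_le_of_lt ?_ h2
  rw [← lintegral_indicator measurableSet_Icc]
  unfold wInt
  refine lintegral_mono fun x => ?_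
  have hx := hg x
  by_cases hm : x ∈ Icc a b
  · rw [indicator_of_mem hm] at hx ⊢
    apply ENNReal.ofReal_le_ofReal
    have : |g x| ^ p ≤ 1 := Real.rpow_le_one (abs_nonneg _) hx hp.le
    nlinarith [hU.nonneg x]
  · rw [indicator_of_notMem hm] at hx
    have : |g x| = 0 := le_antisymm hx (abs_nonneg _)
    rw [this, Real.zero_rpow hp.ne', zero_mul, ENNReal.ofReal_zero]
    exact bot_le

lemma g1_wInt {p : ℝ} (hp : 0 < p) {U : ℝ → ℝ} (hU : IsWeight U) : wInt p U g1 < ⊤ := by
  refine wInt_lt_top hp hU (a := 8) (b := 9) fun x => ?_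
  rw [abs_of_nonneg (g1_nonneg x)]
  exact le_rfl

lemma g0_wInt {p : ℝ} (hp : 0 < p) {U : ℝ → ℝ} (hU : IsWeight U) : wInt p U g0 < ⊤ := by
  refine wInt_lt_top hp hU (a := -1) (b := 1) fun x => ?_
  rw [abs_of_nonneg (g0_nonneg x)]
  unfold g0
  by_cases hm : x ∈ Icc (-1 : ℝ) 1
  · rw [indicator_of_mem hm, indicator_of_mem hm]
    norm_num
  · rw [indicator_of_notMem hm, indicator_of_notMem hm]

/-- the difference of the two densities has a Hilbert transform of exact order `x⁻²` -/
lemma hilbert_diff_lower {x : ℝ} (hx : 20 < |x|) :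
    1 / (2 * x ^ 2) ≤ |hilbert (fun y => g1 y + (-1) * g0 y) x| := by
  have hpi := Real.pi_pos
  have hpi2 : Real.pi < 3.15 := Real.pi_lt_d2
  have hx2 : 0 < x ^ 2 := by
    have : 0 < |x| ^ 2 := by positivity
    rwa [sq_abs] at this
  have hsep1 : ∀ y, g1 y ≠ 0 → 1 ≤ |x - y| := by
    intro y hy
    have h1 := g1_supp hy
    rcases lt_abs.mp hx with h | h
    · rw [abs_of_pos (by linarith)]; linarith
    · rw [abs_of_neg (by linarith)]; linarith
  have hsep0 : ∀ y, g0 y ≠ 0 → 1 ≤ |x - y| := by
    intro y hy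
    have h1 := g0_supp hy
    rcases lt_abs.mp hx with h | h
    · rw [abs_of_pos (by linarith)]; linarith
    · rw [abs_of_neg (by linarith)]; linarith
  have hv1 : ∀ᵐ y, |y - x| < 1 → g1 y = 0 := by
    refine Eventually.of_forall fun y hy => ?_
    by_contra hcon
    have := hsep1 y hcon
    rw [abs_sub_comm y x] at hy
    linarith
  have hv0 : ∀ᵐ y, |y - x| < 1 → g0 y = 0 := by
    refine Eventually.of_forall fun y hy => ?_
    by_contra hcon
    have := hsep0 y hcon
    rw [abs_sub_comm y x] at hy
    linarith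
  have hPV := (hasPV_of_vanish one_pos hv1).add_vanish g1_int g0_int one_pos hv0 (-1)
  rw [hilbert_eq hPV, abs_mul, abs_of_pos (by positivity : (0 : ℝ) < 1 / Real.pi)]
  have i1 := int_vanish g1_int one_pos hv1
  have i0 := int_vanish g0_int one_pos hv0
  have key : 7 / (4 * x ^ 2) ≤ |(∫ y, g1 y / (x - y)) + -1 * ∫ y, g0 y / (x - y)| := by
    refine le_trans ?_ (le_abs_self _)
    rcases lt_abs.mp hx with h | h
    · have a1 : 1 / (x - 8) ≤ ∫ y, g1 y / (x - y) := by
        calc 1 / (x - 8) = ∫ y, g1 y * (1 / (x - 8)) := by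
              rw [integral_mul_const, g1_mass, one_mul]
          _ ≤ _ := by
              refine integral_mono (g1_int.mul_const _) i1 fun y => ?_
              simp only
              by_cases hy : g1 y = 0
              · simp [hy]
              · have h1 := g1_supp hy
                rw [div_eq_mul_one_div (g1 y)]
                exact mul_le_mul_of_nonneg_left
                  (one_div_le_one_div_of_le (by linarith) (by linarith)) (g1_nonneg y)
      have a0 : ∫ y, g0 y / (x - y) ≤ 1 / (x - 1) := by
        calc ∫ y, g0 y / (x - y) ≤ ∫ y, g0 y * (1 / (x - 1)) := by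
              refine integral_mono i0 (g0_int.mul_const _) fun y => ?_
              simp only
              by_cases hy : g0 y = 0
              · simp [hy]
              · have h1 := g0_supp hy
                rw [div_eq_mul_one_div (g0 y)]
                exact mul_le_mul_of_nonneg_left
                  (one_div_le_one_div_of_le (by linarith) (by linarith)) (g0_nonneg y)
          _ = 1 / (x - 1) := by rw [integral_mul_const, g0_mass, one_mul]
      have a2 : 1 / (x - 8) - 1 / (x - 1) = 7 / ((x - 8) * (x - 1)) := by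
        have h8 : x - 8 ≠ 0 := by linarith
        have h1 : x - 1 ≠ 0 := by linarith
        field_simp
        ring
      have a3 : 7 / (4 * x ^ 2) ≤ 7 / ((x - 8) * (x - 1)) := by
        apply div_le_div_of_nonneg_left (by norm_num)
        · exact mul_pos (by linarith) (by linarith)
        · nlinarith
      linarith
    · have a1 : -(1 / (8 - x)) ≤ ∫ y, g1 y / (x - y) := by
        calc -(1 / (8 - x)) = ∫ y, g1 y * (-(1 / (8 - x))) := by
              rw [integral_mul_const, g1_mass, one_mul]
          _ ≤ _ := by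
              refine integral_mono (g1_int.mul_const _) i1 fun y => ?_
              simp only
              by_cases hy : g1 y = 0
              · simp [hy]
              · have h1 := g1_supp hy
                have e : g1 y / (x - y) = g1 y * (-(1 / (y - x))) := by
                  rw [← neg_sub y x, div_neg, div_eq_mul_one_div]
                  ring
                rw [e]
                refine mul_le_mul_of_nonneg_left ?_ (g1_nonneg y)
                exact neg_le_neg (one_div_le_one_div_of_le (by linarith) (by linarith))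
      have a0 : ∫ y, g0 y / (x - y) ≤ -(1 / (1 - x)) := by
        calc ∫ y, g0 y / (x - y) ≤ ∫ y, g0 y * (-(1 / (1 - x))) := by
              refine integral_mono i0 (g0_int.mul_const _) fun y => ?_
              simp only
              by_cases hy : g0 y = 0
              · simp [hy]
              · have h1 := g0_supp hy
                have e : g0 y / (x - y) = g0 y * (-(1 / (y - x))) := by
                  rw [← neg_sub y x, div_neg, div_eq_mul_one_div]
                  ring
                rw [e]
                refine mul_le_mul_of_nonneg_left ?_ (g0_nonneg y)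
                exact neg_le_neg (one_div_le_one_div_of_le (by linarith) (by linarith))
          _ = -(1 / (1 - x)) := by rw [integral_mul_const, g0_mass, one_mul]
      have a2 : -(1 / (8 - x)) + 1 / (1 - x) = 7 / ((8 - x) * (1 - x)) := by
        have h8 : 8 - x ≠ 0 := by linarith
        have h1 : 1 - x ≠ 0 := by linarith
        field_simp
        ring
      have a3 : 7 / (4 * x ^ 2) ≤ 7 / ((8 - x) * (1 - x)) := by
        apply div_le_div_of_nonneg_left (by norm_num)
        · exact mul_pos (by linarith) (by linarith)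
        · nlinarith
      linarith
  calc 1 / (2 * x ^ 2) ≤ 1 / Real.pi * (7 / (4 * x ^ 2)) := by
        rw [div_mul_div_comm, div_le_div_iff₀ (by positivity) (by positivity)]
        nlinarith
    _ ≤ _ := mul_le_mul_of_nonneg_left key (by positivity)

/-- the tail integral is finite -/
lemma theta_lt_top {p : ℝ} (hp : 1 < p) {U : ℝ → ℝ} (hU : IsWeight U) (hA : Admissible p U) :
    ∫⁻ x, ENNReal.ofReal (U x / (1 + |x|) ^ p / (1 + |x|) ^ p) < ⊤ := by
  have hp0 : 0 < p := by linarith
  obtain ⟨C, hC0, hC⟩ := hA.nonneg_const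
  set φ : ℝ → ℝ := fun y => g1 y + (-1) * g0 y with hφ
  have hφi : Integrable φ := g1_int.add (g0_int.const_mul _)
  have hφ0 : ∫ x, φ x = 0 := by
    rw [hφ, integral_add g1_int (g0_int.const_mul _), integral_const_mul, g1_mass, g0_mass]
    ring
  have h1 : wInt p U (hilbert φ) < ⊤ := by
    refine lt_of_le_of_lt (hC φ hφi hφ0) ?_
    refine ENNReal.mul_lt_top ENNReal.ofReal_lt_top ?_
    refine lt_of_le_of_lt (wInt_comb hp0 hU.meas hU.nonneg g1_int.1.aemeasurable _) ?_
    refine ENNReal.mul_lt_top ENNReal.ofReal_lt_top ?_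
    exact ENNReal.add_lt_top.mpr ⟨g1_wInt hp0 hU, ENNReal.mul_lt_top ENNReal.ofReal_lt_top
      (g0_wInt hp0 hU)⟩
  have h2 : ∫⁻ x in Icc (-20 : ℝ) 20, ENNReal.ofReal (U x) < ⊤ := by
    have h1 : IntegrableOn U (Icc (-20 : ℝ) 20) := hU.loc.integrableOn_isCompact isCompact_Icc
    have := h1.2
    rwa [hasFiniteIntegral_iff_ofReal (Eventually.of_forall hU.nonneg)] at this
  have h3 : ∫⁻ x, ENNReal.ofReal (U x / (1 + |x|) ^ p / (1 + |x|) ^ p) ≤
      ENNReal.ofReal (2 ^ p) * wInt p U (hilbert φ) +
        ∫⁻ x in Icc (-20 : ℝ) 20, ENNReal.ofReal (U x) := by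
    unfold wInt
    rw [← lintegral_const_mul' _ _ ENNReal.ofReal_ne_top, ← lintegral_indicator measurableSet_Icc,
      ← lintegral_add_left']
    · refine lintegral_mono fun x => ?_
      have hU0 := hU.nonneg x
      have hx1 : (1 : ℝ) ≤ (1 + |x|) ^ p := Real.one_le_rpow (by linarith [abs_nonneg x]) hp0.le
      by_cases hx : x ∈ Icc (-20 : ℝ) 20
      · rw [indicator_of_mem hx]
        refine le_add_left ?_
        apply ENNReal.ofReal_le_ofReal
        rw [div_div]
        exact div_le_self hU0 (by nlinarith)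
      · rw [indicator_of_notMem hx, add_zero, ← ENNReal.ofReal_mul (by positivity)]
        apply ENNReal.ofReal_le_ofReal
        have hx' : 20 < |x| := by
          by_contra hcon
          rw [not_lt] at hcon
          exact hx (abs_le.mp hcon)
        have h4 := hilbert_diff_lower hx'
        have h5 : (1 / (2 * x ^ 2)) ^ p ≤ |hilbert φ x| ^ p :=
          Real.rpow_le_rpow (by positivity) h4 hp0.le
        have hxp : 0 < |x| := by linarith
        have h6 : U x / (1 + |x|) ^ p / (1 + |x|) ^ p ≤ 2 ^ p * ((1 / (2 * x ^ 2)) ^ p * U x) := by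
          have e1 : (2 : ℝ) ^ p * ((1 / (2 * x ^ 2)) ^ p * U x) = U x / (|x| ^ p * |x| ^ p) := by
            rw [← mul_assoc, ← Real.mul_rpow (by norm_num) (by positivity)]
            have : 2 * (1 / (2 * x ^ 2)) = 1 / (|x| * |x|) := by
              rw [← sq_abs x]
              field_simp
            rw [this, Real.div_rpow zero_le_one (by positivity), Real.one_rpow,
              Real.mul_rpow hxp.le hxp.le]
            ring
          rw [e1, div_div]
          apply div_le_div_of_nonneg_left hU0 (by positivity)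
          have : |x| ^ p ≤ (1 + |x|) ^ p := Real.rpow_le_rpow hxp.le (by linarith) hp0.le
          gcongr
        refine h6.trans ?_
        gcongr
    · exact ((((hilbert_measurable hφi).abs.pow_const p).mul hU.meas).ennreal_ofReal.const_mul
        _).aemeasurable
  refine lt_of_le_of_lt h3 ?_
  exact ENNReal.add_lt_top.mpr ⟨ENNReal.mul_lt_top ENNReal.ofReal_lt_top h1, h2⟩

/-- Hölder: `(∫ |k| / (1 + |y|))^p ≤ (∫ |k|^p U / (1 + |y|)^p) (∫ σ)^(p - 1)` -/
lemma holder_Q {p : ℝ} (hp : 1 < p) {U : ℝ → ℝ} (hm : Measurable U)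
    (hpos : ∀ᵐ x, 0 < U x) {k : ℝ → ℝ} (hk : AEMeasurable k) :
    (∫⁻ y, ENNReal.ofReal (|k y| / (1 + |y|))) ^ p ≤
      wInt p (fun x => U x / (1 + |x|) ^ p) k * (∫⁻ y, ENNReal.ofReal (sig p U y)) ^ (p - 1) := by
  have hp0 : 0 < p := by linarith
  have hpq : p.HolderConjugate (p / (p - 1)) := Real.HolderConjugate.conjExponent hp
  have h1 := ENNReal.lintegral_mul_le_Lp_mul_Lq volume hpq
    (f := fun y => ENNReal.ofReal (|k y| / (1 + |y|) * U y ^ (1 / p)))
    (g := fun y => ENNReal.ofReal (U y ^ (-(1 / p))))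
    (((hk.abs.div (by fun_prop)).mul (hm.pow_const _).aemeasurable).ennreal_ofReal)
    ((hm.pow_const _).ennreal_ofReal.aemeasurable)
  have h2 : ∫⁻ y, (((fun y => ENNReal.ofReal (|k y| / (1 + |y|) * U y ^ (1 / p))) *
      (fun y => ENNReal.ofReal (U y ^ (-(1 / p))))) y) =
      ∫⁻ y, ENNReal.ofReal (|k y| / (1 + |y|)) := by
    refine lintegral_congr_ae ?_
    filter_upwards [hpos] with y hy
    simp only [Pi.mul_apply]
    rw [← ENNReal.ofReal_mul (by positivity), mul_assoc, ← Real.rpow_add hy]
    have : 1 / p + -(1 / p) = 0 := by ring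
    rw [this, Real.rpow_zero, mul_one]
  have h3 : ∫⁻ y, (fun y => ENNReal.ofReal (|k y| / (1 + |y|) * U y ^ (1 / p))) y ^ p =
      wInt p (fun x => U x / (1 + |x|) ^ p) k := by
    unfold wInt
    refine lintegral_congr_ae ?_
    filter_upwards [hpos] with y hy
    rw [ENNReal.ofReal_rpow_of_nonneg (by positivity) hp0.le,
      Real.mul_rpow (by positivity) (by positivity), ← Real.rpow_mul hy.le,
      Real.div_rpow (abs_nonneg _) (by positivity)]
    have : 1 / p * p = 1 := by field_simp
    rw [this, Real.rpow_one]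
    congr 1
    ring
  have h4 : ∫⁻ y, (fun y => ENNReal.ofReal (U y ^ (-(1 / p)))) y ^ (p / (p - 1)) =
      ∫⁻ y, ENNReal.ofReal (sig p U y) := by
    refine lintegral_congr_ae ?_
    filter_upwards [hpos] with y hy
    have hp1 : 0 < p - 1 := by linarith
    rw [ENNReal.ofReal_rpow_of_nonneg (by positivity) (by positivity), ← Real.rpow_mul hy.le]
    unfold sig
    congr 2
    field_simp
  rw [h2, h3, h4] at h1
  have h5 := ENNReal.rpow_le_rpow h1 hp0.le
  rw [ENNReal.mul_rpow_of_nonneg _ _ hp0.le, ← ENNReal.rpow_mul, ← ENNReal.rpow_mul] at h5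
  have e1 : 1 / p * p = 1 := by field_simp
  have e2 : 1 / (p / (p - 1)) * p = p - 1 := by
    have : p - 1 ≠ 0 := by linarith
    field_simp
  rw [e1, e2, ENNReal.rpow_one] at h5
  exact h5

end Pool.Agent.V8H55.HW
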