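import Pool.Agent.V8H55.HW.CaseFin

set_option autoImplicit false

open MeasureTheory Filter Topology Set

namespace Pool.Agent.V8H55.HW

lemma inv_pi_le : 1 / Real.pi ≤ 1 / 3 :=
  one_div_le_one_div_of_le (by norm_num) Real.pi_gt_three.le

/-- pointwise bound, function supported near the origin -/
lemma near_bound {k : ℝ → ℝ} (hk : Integrable k) (hs : ∀ y, k y ≠ 0 → |y| ≤ 4) (x : ℝ) :
    |hilbert k x| ≤ |hilbert (fun y => k y + (-∫ z, k z) * g1 y) x| +
      7 * (∫ y, |k y|) / (1 + |x|) := by
  have hpi := Real.pi_pos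
  have hipi := inv_pi_le
  set Q := ∫ y, |k y| with hQ
  have hQ0 : 0 ≤ Q := integral_nonneg fun y => abs_nonneg _
  have hmQ : |∫ z, k z| ≤ Q := abs_integral_le_integral_abs
  by_cases hx : ∃ l, HasPV k x l
  swap
  · rw [hilbert_of_not hx, abs_zero]
    positivity
  obtain ⟨l, hl⟩ := hx
  rcases lt_or_ge |x| 6 with h6 | h6
  · -- near the origin
    have hsep : ∀ y, g1 y ≠ 0 → 2 ≤ |x - y| := by
      intro y hy
      have h1 := g1_supp hy
      have := abs_lt.mp h6
      rw [abs_of_neg (by linarith)]
      linarith
    have hv : ∀ᵐ y, |y - x| < 2 → g1 y = 0 := by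
      refine Eventually.of_forall fun y hy => ?_
      by_contra hcon
      have := hsep y hcon
      rw [abs_sub_comm y x] at hy
      linarith
    have hPV := hl.add_vanish hk g1_int two_pos hv (-∫ z, k z)
    rw [hilbert_eq hl, hilbert_eq hPV]
    have hb := abs_pv_le g1_int two_pos hsep
    rw [g1_abs_mass] at hb
    set J := ∫ y, g1 y / (x - y) with hJ
    have h1 : |1 / Real.pi * l| ≤ |1 / Real.pi * (l + (-∫ z, k z) * J)| +
        |1 / Real.pi * ((∫ z, k z) * J)| := by
      have := abs_add_le (1 / Real.pi * (l + (-∫ z, k z) * J)) (1 / Real.pi * ((∫ z, k z) * J))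
      have e : 1 / Real.pi * (l + (-∫ z, k z) * J) + 1 / Real.pi * ((∫ z, k z) * J) =
          1 / Real.pi * l := by ring
      rwa [e] at this
    have h2 : |1 / Real.pi * ((∫ z, k z) * J)| ≤ 7 * Q / (1 + |x|) := by
      rw [abs_mul, abs_mul, abs_of_pos (by positivity : (0 : ℝ) < 1 / Real.pi)]
      have h3 : |∫ z, k z| * |J| ≤ Q * (1 / 2) := mul_le_mul hmQ hb (abs_nonneg _) hQ0
      have h4 : 1 / Real.pi * (|∫ z, k z| * |J|) ≤ 1 / 3 * (Q * (1 / 2)) :=
        mul_le_mul hipi h3 (by positivity) (by norm_num)
      refine h4.trans ?_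
      rw [le_div_iff₀ (by positivity)]
      nlinarith [abs_nonneg x]
    linarith
  · have hr : 0 < |x| - 4 := by linarith
    have hsep : ∀ y, k y ≠ 0 → |x| - 4 ≤ |x - y| := by
      intro y hy
      have h1 := hs y hy
      have := abs_sub_abs_le_abs_sub x y
      linarith
    have hv : ∀ᵐ y, |y - x| < |x| - 4 → k y = 0 := by
      refine Eventually.of_forall fun y hy => ?_
      by_contra hcon
      have := hsep y hcon
      rw [abs_sub_comm y x] at hy
      linarith
    rw [hilbert_eq (hasPV_of_vanish hr hv), abs_mul, abs_of_pos (by positivity : (0 : ℝ) < 1 / Real.pi)]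
    have hb := abs_pv_le hk hr hsep
    rw [← hQ] at hb
    have h1 : 1 / Real.pi * |∫ y, k y / (x - y)| ≤ 1 / 3 * (Q / (|x| - 4)) :=
      mul_le_mul hipi hb (abs_nonneg _) (by norm_num)
    have h2 : 1 / 3 * (Q / (|x| - 4)) ≤ 7 * Q / (1 + |x|) := by
      rw [← mul_div_assoc, div_le_div_iff₀ hr (by positivity)]
      nlinarith
    have h3 := abs_nonneg (hilbert (fun y => k y + (-∫ z, k z) * g1 y) x)
    linarith

/-- pointwise bound, function supported away from the origin -/
lemma far_bound {k : ℝ → ℝ} (hk : Integrable k) (hs : ∀ y, k y ≠ 0 → 4 < |y|) (x : ℝ) :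
    |hilbert k x| ≤ |x * hilbert (fun y => k y / y + (-∫ z, k z / z) * g0 y) x| +
      8 * (∫ y, |k y / y|) / (1 + |x|) := by
  have hpi := Real.pi_pos
  have hipi := inv_pi_le
  set Q := ∫ y, |k y / y| with hQ
  have hQ0 : 0 ≤ Q := integral_nonneg fun y => abs_nonneg _
  -- h is integrable
  set h : ℝ → ℝ := fun y => k y / y with hh
  have hhi : Integrable h := by
    have h1 : h = fun y => k y * ker 4 y := by
      funext y
      simp only [hh, ker]
      split_ifs with h2
      · ring
      · have : k y = 0 := by
          by_contra hcon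
          exact h2 (hs y hcon)
        rw [this]
        ring
    rw [h1]
    refine Integrable.mul_bdd (c := 1 / 4) hk (ker_meas' 4).aestronglyMeasurable ?_
    exact Eventually.of_forall fun y => by rw [Real.norm_eq_abs]; exact ker_abs_le (by norm_num) _
  have hmul : (fun y => (y - 0) * h y) = k := by
    funext y
    simp only [hh, sub_zero]
    by_cases hy : k y = 0
    · simp [hy]
    · have : y ≠ 0 := by
        intro h0
        have := hs y hy
        rw [h0, abs_zero] at this
        linarith
      field_simp
  set m := ∫ z, h z with hm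
  have hmQ : |m| ≤ Q := abs_integral_le_integral_abs
  by_cases hx : ∃ l, HasPV k x l
  swap
  · rw [hilbert_of_not hx, abs_zero]
    positivity
  obtain ⟨l, hl⟩ := hx
  rcases le_or_gt |x| 3 with h3 | h3
  · -- ordinary integral
    have hsep : ∀ y, k y ≠ 0 → 1 ≤ |x - y| := by
      intro y hy
      have h1 := hs y hy
      have := abs_sub_abs_le_abs_sub y x
      rw [abs_sub_comm y x] at this
      linarith
    have hv : ∀ᵐ y, |y - x| < 1 → k y = 0 := by
      refine Eventually.of_forall fun y hy => ?_
      by_contra hcon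
      have := hsep y hcon
      rw [abs_sub_comm y x] at hy
      linarith
    rw [hilbert_eq (hasPV_of_vanish one_pos hv), abs_mul,
      abs_of_pos (by positivity : (0 : ℝ) < 1 / Real.pi)]
    have hi := int_vanish hk one_pos hv
    have hb : |∫ y, k y / (x - y)| ≤ 4 * Q := by
      refine (abs_integral_le_integral_abs).trans ?_
      rw [hQ, ← integral_const_mul]
      refine integral_mono hi.abs (hhi.abs.const_mul 4) fun y => ?_
      simp only
      by_cases hy : k y = 0
      · simp [hy]
      · have h1 := hs y hy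
        rw [abs_div, abs_div]
        have h2 : |y| / 4 ≤ |x - y| := by
          have := abs_sub_abs_le_abs_sub y x
          rw [abs_sub_comm y x] at this
          linarith
        have h4 : |k y| / |x - y| ≤ |k y| / (|y| / 4) :=
          div_le_div_of_nonneg_left (abs_nonneg _) (by linarith) h2
        refine h4.trans (le_of_eq ?_)
        field_simp
    have h1 : 1 / Real.pi * |∫ y, k y / (x - y)| ≤ 1 / 3 * (4 * Q) :=
      mul_le_mul hipi hb (abs_nonneg _) (by norm_num)
    have h2 : 1 / 3 * (4 * Q) ≤ 8 * Q / (1 + |x|) := by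
      rw [le_div_iff₀ (by positivity)]
      nlinarith
    have h5 := abs_nonneg (x * hilbert (fun y => h y + (-m) * g0 y) x)
    linarith
  · have hx0 : x ≠ 0 := by
      intro h0
      rw [h0, abs_zero] at h3
      linarith
    have hPVh : HasPV h x ((l + m) / (x - 0)) := by
      refine hasPV_of_mul hhi (by rw [hmul]; exact hk) hx0 ?_
      rw [hmul]
      exact hl
    have hr : 0 < |x| - 1 := by linarith
    have hsep : ∀ y, g0 y ≠ 0 → |x| - 1 ≤ |x - y| := by
      intro y hy
      have h1 := abs_le.mpr (g0_supp hy)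
      have := abs_sub_abs_le_abs_sub x y
      linarith
    have hv : ∀ᵐ y, |y - x| < |x| - 1 → g0 y = 0 := by
      refine Eventually.of_forall fun y hy => ?_
      by_contra hcon
      have := hsep y hcon
      rw [abs_sub_comm y x] at hy
      linarith
    have hPV := hPVh.add_vanish hhi g0_int hr hv (-m)
    rw [sub_zero] at hPV
    rw [hilbert_eq hl, hilbert_eq hPV]
    have i0 := int_vanish g0_int hr hv
    -- x ∫ g0/(x-y) - 1 = ∫ y g0 /(x-y)
    have hG : Integrable (fun y => g0 y * y) := by
      have : (fun y => g0 y * y) = indicator (Icc (-1) 1) (fun y : ℝ => 1 / 2 * y) := by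
        funext y
        unfold g0
        by_cases hy : y ∈ Icc (-1 : ℝ) 1
        · rw [indicator_of_mem hy, indicator_of_mem hy]
        · rw [indicator_of_notMem hy, indicator_of_notMem hy, zero_mul]
      rw [this, integrable_indicator_iff measurableSet_Icc]
      exact (by fun_prop : ContinuousOn (fun y : ℝ => 1 / 2 * y) (Icc (-1) 1)).integrableOn_Icc
    have e1 : x * (∫ y, g0 y / (x - y)) = 1 + ∫ y, (g0 y * y) / (x - y) := by
      have hvG : ∀ᵐ y, |y - x| < |x| - 1 → g0 y * y = 0 := by
        filter_upwards [hv] with y hy h1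
        rw [hy h1, zero_mul]
      have iG := int_vanish hG hr hvG
      rw [← integral_const_mul, ← g0_mass, ← integral_add g0_int iG]
      refine integral_congr_ae (Eventually.of_forall fun y => ?_)
      simp only
      by_cases hy : g0 y = 0
      · simp [hy]
      · have h1 := hsep y hy
        have h2 : x - y ≠ 0 := by
          intro h4
          rw [h4, abs_zero] at h1
          linarith
        field_simp
        ring
    have hb : |∫ y, (g0 y * y) / (x - y)| ≤ 1 / (|x| - 1) := by
      refine (abs_pv_le hG hr (fun y hy => hsep y (fun h0 => hy (by rw [h0, zero_mul])))).trans ?_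
      refine div_le_div_of_nonneg_right ?_ hr.le
      rw [← g0_abs_mass]
      refine integral_mono hG.abs g0_int.abs fun y => ?_
      simp only
      rw [abs_mul]
      by_cases hy : g0 y = 0
      · simp [hy]
      · have h1 := abs_le.mpr (g0_supp hy)
        nlinarith [abs_nonneg (g0 y)]
    set J := ∫ y, g0 y / (x - y) with hJ
    set G := ∫ y, (g0 y * y) / (x - y) with hGdef
    have e2 : 1 / Real.pi * l = x * (1 / Real.pi * ((l + m) / x + -m * J)) + 1 / Real.pi * (m * G) := by
      have e3 : x * ((l + m) / x + -m * J) = l + m - m * (x * J) := by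
        field_simp
        ring
      calc 1 / Real.pi * l = 1 / Real.pi * ((l + m - m * (1 + G)) + m * G) := by ring
        _ = 1 / Real.pi * (x * ((l + m) / x + -m * J) + m * G) := by rw [e3, e1]
        _ = _ := by ring
    rw [e2]
    refine (abs_add_le _ _).trans ?_
    gcongr
    rw [abs_mul, abs_mul, abs_of_pos (by positivity : (0 : ℝ) < 1 / Real.pi)]
    have h4 : |m| * |G| ≤ Q * (1 / (|x| - 1)) := mul_le_mul hmQ hb (abs_nonneg _) hQ0
    have h5 : 1 / Real.pi * (|m| * |G|) ≤ 1 / 3 * (Q * (1 / (|x| - 1))) :=
      mul_le_mul hipi h4 (by positivity) (by norm_num)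
    refine h5.trans ?_
    have e6 : 1 / 3 * (Q * (1 / (|x| - 1))) = Q / (3 * (|x| - 1)) := by
      field_simp
    rw [e6, div_le_div_iff₀ (by positivity) (by positivity)]
    nlinarith

/-- splitting a function at `|y| = 4` -/
lemma split_bound {k : ℝ → ℝ} (hk : Integrable k) {x : ℝ} (hx4 : |x| ≠ 4) :
    |hilbert k x| ≤ |hilbert (indicator {y : ℝ | |y| ≤ 4} k) x| +
      |hilbert (indicator {y : ℝ | |y| ≤ 4}ᶜ k) x| := by
  have hE : MeasurableSet {y : ℝ | |y| ≤ 4} := measurableSet_le measurable_id.abs measurable_const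
  by_cases hx : ∃ l, HasPV k x l
  swap
  · rw [hilbert_of_not hx, abs_zero]
    positivity
  obtain ⟨l, hl⟩ := hx
  set a := indicator {y : ℝ | |y| ≤ 4} k with ha
  set b := indicator {y : ℝ | |y| ≤ 4}ᶜ k with hb
  have hai : Integrable a := hk.indicator hE
  have hbi : Integrable b := hk.indicator hE.compl
  have hab : ∀ y, a y + b y = k y := by
    intro y
    exact congrFun (indicator_self_add_compl {y : ℝ | |y| ≤ 4} k) y
  have hpi := Real.pi_pos
  rcases lt_or_gt_of_ne hx4 with h | h
  · -- b vanishes near x
    have hv : ∀ᵐ y, |y - x| < 4 - |x| → b y = 0 := by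
      refine Eventually.of_forall fun y hy => ?_
      have h1 : y ∉ {y : ℝ | |y| ≤ 4}ᶜ := by
        intro hmem
        apply hmem
        have := abs_sub_abs_le_abs_sub y x
        show |y| ≤ 4
        linarith
      rw [hb, indicator_of_notMem h1]
    have hPVb := hasPV_of_vanish (by linarith) hv
    have hPVa : HasPV a x (l + (-1) * ∫ y, b y / (x - y)) := by
      have := hl.add_vanish hk hbi (by linarith : 0 < 4 - |x|) hv (-1)
      refine this.congr (Eventually.of_forall fun y => ?_)
      have := hab y
      linarith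
    rw [hilbert_eq hl, hilbert_eq hPVa, hilbert_eq hPVb]
    have := abs_add_le (1 / Real.pi * (l + (-1) * ∫ y, b y / (x - y)))
      (1 / Real.pi * ∫ y, b y / (x - y))
    refine le_trans (le_of_eq ?_) this
    congr 1
    ring
  · have hv : ∀ᵐ y, |y - x| < |x| - 4 → a y = 0 := by
      refine Eventually.of_forall fun y hy => ?_
      have h1 : y ∉ {y : ℝ | |y| ≤ 4} := by
        intro (hmem : |y| ≤ 4)
        have := abs_sub_abs_le_abs_sub x y
        rw [abs_sub_comm x y] at this
        linarith
      rw [ha, indicator_of_notMem h1]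
    have hPVa := hasPV_of_vanish (by linarith) hv
    have hPVb : HasPV b x (l + (-1) * ∫ y, a y / (x - y)) := by
      have := hl.add_vanish hk hai (by linarith : 0 < |x| - 4) hv (-1)
      refine this.congr (Eventually.of_forall fun y => ?_)
      have := hab y
      linarith
    rw [hilbert_eq hl, hilbert_eq hPVa, hilbert_eq hPVb]
    have := abs_add_le (1 / Real.pi * ∫ y, a y / (x - y))
      (1 / Real.pi * (l + (-1) * ∫ y, a y / (x - y)))
    refine le_trans (le_of_eq ?_) this
    congr 1
    ring

end Pool.Agent.V8H55.HW
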