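import Pool.Agent.V8H55.HW.CaseFin2

set_option autoImplicit false

open MeasureTheory Filter Topology Set

namespace Pool.Agent.V8H55.HW

/-- Case 3: finite dual mass. -/
theorem case_fin {p : ℝ} (hp : 1 < p) {U : ℝ → ℝ} (hU : IsWeight U)
    (hpos : ∀ᵐ x, 0 < U x) (hA : Admissible p U)
    (hS : ∫⁻ x, ENNReal.ofReal (sig p U x) ≠ ⊤) :
    HilbertBounded p (fun x => U x / (1 + |x|) ^ p) := by
  have hp0 : 0 < p := by linarith
  have hm := hU.meas
  have h0 := hU.nonneg
  obtain ⟨C, hC0, hC⟩ := hA.nonneg_const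
  set V : ℝ → ℝ := fun x => U x / (1 + |x|) ^ p with hV
  have hVm : Measurable V := hm.div ((measurable_id.abs.const_add 1).pow_const p)
  have hone : ∀ x : ℝ, (1 : ℝ) ≤ (1 + |x|) ^ p := fun x =>
    Real.one_le_rpow (by linarith [abs_nonneg x]) hp0.le
  have hV0 : ∀ x, 0 ≤ V x := fun x => div_nonneg (h0 x) (by linarith [hone x])
  have hVU : ∀ x, V x ≤ U x := fun x => div_le_self (h0 x) (hone x)
  set S := ∫⁻ x, ENNReal.ofReal (sig p U x) with hSdef
  set Θ := ∫⁻ x, ENNReal.ofReal (V x / (1 + |x|) ^ p) with hΘ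
  have hΘfin : Θ ≠ ⊤ := (theta_lt_top hp hU hA).ne
  have hG1 : wInt p U g1 ≠ ⊤ := (g1_wInt hp0 hU).ne
  have hG0 : wInt p U g0 ≠ ⊤ := (g0_wInt hp0 hU).ne
  have hS' : S ^ (p - 1) ≠ ⊤ := ENNReal.rpow_ne_top_of_nonneg (by linarith) hS
  set c : ENNReal := ENNReal.ofReal C with hc
  set c2 : ENNReal := ENNReal.ofReal (2 ^ p) with hc2
  set c5 : ENNReal := ENNReal.ofReal (5 ^ p) with hc5
  set c51 : ENNReal := ENNReal.ofReal (51 ^ p) with hc51
  set K : ENNReal := c2 * (c2 * (c * (c2 * (c5 + c5 * S ^ (p - 1) * wInt p U g1)) +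
    c * (c2 * (c2 + c2 * S ^ (p - 1) * wInt p U g0))) + c51 * S ^ (p - 1) * Θ) with hK
  have hKfin : K ≠ ⊤ := by
    rw [hK]
    have a1 : c ≠ ⊤ := ENNReal.ofReal_ne_top
    have a2 : c2 ≠ ⊤ := ENNReal.ofReal_ne_top
    have a3 : c5 ≠ ⊤ := ENNReal.ofReal_ne_top
    have a4 : c51 ≠ ⊤ := ENNReal.ofReal_ne_top
    finiteness
  refine ⟨K.toReal, fun k hk => ?_⟩
  rw [ENNReal.ofReal_toReal hKfin]
  set X := wInt p V k with hX
  have hE : MeasurableSet {y : ℝ | |y| ≤ 4} := measurableSet_le measurable_id.abs measurable_const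
  set k0 := indicator {y : ℝ | |y| ≤ 4} k with hk0
  set k1 := indicator {y : ℝ | |y| ≤ 4}ᶜ k with hk1
  have hk0i : Integrable k0 := hk.indicator hE
  have hk1i : Integrable k1 := hk.indicator hE.compl
  have hs0 : ∀ y, k0 y ≠ 0 → |y| ≤ 4 := by
    intro y hy
    by_contra hcon
    exact hy (by rw [hk0, indicator_of_notMem]; exact hcon)
  have hs1 : ∀ y, k1 y ≠ 0 → 4 < |y| := by
    intro y hy
    by_contra hcon
    refine hy ?_
    rw [hk1, indicator_of_notMem]
    intro h
    exact h (not_lt.mp hcon)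
  have hk0le : ∀ y, |k0 y| ≤ |k y| := fun y => by
    rw [hk0]
    simpa [Real.norm_eq_abs] using norm_indicator_le_norm_self (s := {y : ℝ | |y| ≤ 4}) k y
  have hk1le : ∀ y, |k1 y| ≤ |k y| := fun y => by
    rw [hk1]
    simpa [Real.norm_eq_abs] using norm_indicator_le_norm_self (s := {y : ℝ | |y| ≤ 4}ᶜ) k y
  -- the functions used for testing
  set h1 : ℝ → ℝ := fun y => k1 y / y with hh1
  have hh1i : Integrable h1 := by
    have e1 : h1 = fun y => k1 y * ker 4 y := by
      funext y
      simp only [hh1, ker]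
      split_ifs with h2
      · ring
      · have : k1 y = 0 := by
          by_contra hcon
          exact h2 (hs1 y hcon)
        rw [this]
        ring
    rw [e1]
    refine Integrable.mul_bdd (c := 1 / 4) hk1i (ker_meas' 4).aestronglyMeasurable ?_
    exact Eventually.of_forall fun y => by rw [Real.norm_eq_abs]; exact ker_abs_le (by norm_num) _
  set f1 : ℝ → ℝ := fun y => k0 y + (-∫ z, k0 z) * g1 y with hf1
  set f2 : ℝ → ℝ := fun y => h1 y + (-∫ z, h1 z) * g0 y with hf2
  have hf1i : Integrable f1 := hk0i.add (g1_int.const_mul _)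
  have hf2i : Integrable f2 := hh1i.add (g0_int.const_mul _)
  have hf1m : ∫ y, f1 y = 0 := by
    rw [hf1, integral_add hk0i (g1_int.const_mul _), integral_const_mul, g1_mass]
    ring
  have hf2m : ∫ y, f2 y = 0 := by
    rw [hf2, integral_add hh1i (g0_int.const_mul _), integral_const_mul, g0_mass]
    ring
  -- the quantity Q
  have hQi : Integrable (fun y => |k y| / (1 + |y|)) := by
    refine hk.abs.mono' ?_ (Eventually.of_forall fun y => ?_)
    · exact (hk.1.norm.aemeasurable.div (by fun_prop)).aestronglyMeasurable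
    · rw [Real.norm_eq_abs, abs_of_nonneg (by positivity)]
      exact div_le_self (abs_nonneg _) (by linarith [abs_nonneg y])
  set Q := ∫ y, |k y| / (1 + |y|) with hQ
  have hQ0 : 0 ≤ Q := integral_nonneg fun y => by positivity
  have hQX : ENNReal.ofReal (Q ^ p) ≤ X * S ^ (p - 1) := by
    have h2 := holder_Q hp hm hpos hk.1.aemeasurable
    rw [← ofReal_integral_eq_lintegral_ofReal hQi (Eventually.of_forall fun y => by positivity),
      ENNReal.ofReal_rpow_of_nonneg hQ0 hp0.le] at h2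
    exact h2
  have hQ0le : ∫ y, |k0 y| ≤ 5 * Q := by
    rw [hQ, ← integral_const_mul]
    refine integral_mono hk0i.abs (hQi.const_mul 5) fun y => ?_
    simp only
    by_cases hy : k0 y = 0
    · rw [hy, abs_zero]; positivity
    · have h2 := hs0 y hy
      refine (hk0le y).trans ?_
      rw [← mul_div_assoc, le_div_iff₀ (by positivity)]
      nlinarith [abs_nonneg (k y)]
  have hQ1le : ∫ y, |h1 y| ≤ 2 * Q := by
    rw [hQ, ← integral_const_mul]
    refine integral_mono hh1i.abs (hQi.const_mul 2) fun y => ?_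
    simp only [hh1]
    by_cases hy : k1 y = 0
    · rw [hy, zero_div, abs_zero]; positivity
    · have h2 := hs1 y hy
      rw [abs_div]
      calc |k1 y| / |y| ≤ |k y| / |y| := div_le_div_of_nonneg_right (hk1le y) (abs_nonneg _)
        _ ≤ 2 * (|k y| / (1 + |y|)) := by
            rw [← mul_div_assoc, div_le_div_iff₀ (by linarith) (by positivity)]
            nlinarith [abs_nonneg (k y)]
  have hm0 : |(-∫ z, k0 z)| ≤ 5 * Q := by
    rw [abs_neg]
    exact (abs_integral_le_integral_abs).trans hQ0le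
  have hm1 : |(-∫ z, h1 z)| ≤ 2 * Q := by
    rw [abs_neg]
    exact (abs_integral_le_integral_abs).trans hQ1le
  -- powers of the masses
  have hpow : ∀ (t A : ℝ), 0 ≤ A → |t| ≤ A * Q → ENNReal.ofReal (|t| ^ p) ≤
      ENNReal.ofReal (A ^ p) * (X * S ^ (p - 1)) := by
    intro t A hA' ht
    calc ENNReal.ofReal (|t| ^ p) ≤ ENNReal.ofReal ((A * Q) ^ p) :=
          ENNReal.ofReal_le_ofReal (Real.rpow_le_rpow (abs_nonneg _) ht hp0.le)
      _ = ENNReal.ofReal (A ^ p) * ENNReal.ofReal (Q ^ p) := by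
          rw [Real.mul_rpow hA' hQ0, ENNReal.ofReal_mul (by positivity)]
      _ ≤ _ := mul_le_mul_right hQX _
  -- pointwise bound
  set q := 7 * (∫ y, |k0 y|) + 8 * (∫ y, |h1 y|) with hq
  have hq0 : 0 ≤ q := by
    have a1 : 0 ≤ ∫ y, |k0 y| := integral_nonneg fun y => abs_nonneg _
    have a2 : 0 ≤ ∫ y, |h1 y| := integral_nonneg fun y => abs_nonneg _
    positivity
  have hqQ : |q| ≤ 51 * Q := by
    rw [abs_of_nonneg hq0]
    linarith
  have hne4 : ∀ᵐ x : ℝ, |x| ≠ 4 := by
    have a1 : ∀ᵐ x : ℝ, x ≠ 4 := by simp [ae_iff, measure_singleton]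
    have a2 : ∀ᵐ x : ℝ, x ≠ -4 := by simp [ae_iff, measure_singleton]
    filter_upwards [a1, a2] with x hx1 hx2 hcon
    rcases (abs_eq (by norm_num : (0 : ℝ) ≤ 4)).mp hcon with h | h
    · exact hx1 h
    · exact hx2 h
  have hpt : ∀ᵐ x, |hilbert k x| ≤ |(|hilbert f1 x| + |x * hilbert f2 x|)| +
      |q * (1 / (1 + |x|))| := by
    filter_upwards [hne4] with x hx
    have b1 := split_bound hk hx
    have b2 := near_bound hk0i hs0 x
    have b3 := far_bound hk1i hs1 x
    rw [abs_of_nonneg (by positivity : 0 ≤ |hilbert f1 x| + |x * hilbert f2 x|),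
      abs_of_nonneg (by positivity : 0 ≤ q * (1 / (1 + |x|)))]
    have e : q * (1 / (1 + |x|)) = 7 * (∫ y, |k0 y|) / (1 + |x|) + 8 * (∫ y, |h1 y|) / (1 + |x|) := by
      rw [hq]
      ring
    rw [e]
    linarith
  have hHf1 := hilbert_measurable hf1i
  have hHf2 := hilbert_measurable hf2i
  -- integrate
  have i1 : wInt p V (hilbert k) ≤ c2 * (wInt p V (fun x => |hilbert f1 x| + |x * hilbert f2 x|) +
      wInt p V (fun x => q * (1 / (1 + |x|)))) := by
    refine wInt_le_of_le hp0 hVm hV0 ?_ hpt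
    exact (hHf1.abs.add (measurable_id.mul hHf2).abs).aemeasurable
  have i2 : wInt p V (fun x => |hilbert f1 x| + |x * hilbert f2 x|) ≤
      c2 * (wInt p V (hilbert f1) + wInt p V (fun x => x * hilbert f2 x)) := by
    refine wInt_le_of_le hp0 hVm hV0 hHf1.aemeasurable (Eventually.of_forall fun x => ?_)
    rw [abs_of_nonneg (by positivity)]
  have i3 : wInt p V (fun x => q * (1 / (1 + |x|))) = ENNReal.ofReal (|q| ^ p) * Θ := by
    rw [wInt_const_mul]
    congr 1
    rw [hΘ]
    unfold wInt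
    refine lintegral_congr fun x => ?_
    congr 1
    rw [abs_of_nonneg (by positivity), Real.div_rpow zero_le_one (by positivity), Real.one_rpow]
    ring
  have i4 : wInt p V (hilbert f1) ≤ c * (c2 * (c5 * X + c5 * (X * S ^ (p - 1)) * wInt p U g1)) := by
    have j1 : wInt p V (hilbert f1) ≤ wInt p U (hilbert f1) :=
      wInt_mono (Eventually.of_forall fun x =>
        mul_le_mul_of_nonneg_left (hVU x) (Real.rpow_nonneg (abs_nonneg _) _))
    refine j1.trans ((hC f1 hf1i hf1m).trans (mul_le_mul_right ?_ _))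
    refine (wInt_comb hp0 hm h0 hk0i.1.aemeasurable _).trans (mul_le_mul_right ?_ _)
    refine add_le_add ?_ (mul_le_mul_left (hpow _ 5 (by norm_num) hm0) _)
    -- wInt p U k0 ≤ c5 * X
    rw [hX, hc5]
    unfold wInt
    rw [← lintegral_const_mul' _ _ ENNReal.ofReal_ne_top]
    refine lintegral_mono fun x => ?_
    rw [← ENNReal.ofReal_mul (by positivity)]
    apply ENNReal.ofReal_le_ofReal
    by_cases hy : k0 x = 0
    · rw [hy, abs_zero, Real.zero_rpow hp0.ne', zero_mul]
      have := hV0 x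
      positivity
    · have h2 := hs0 x hy
      have h3 : (1 + |x|) ^ p ≤ 5 ^ p := Real.rpow_le_rpow (by positivity) (by linarith) hp0.le
      have h4 : U x ≤ 5 ^ p * V x := by
        rw [hV]
        simp only
        rw [← mul_div_assoc, le_div_iff₀ (by positivity)]
        nlinarith [h0 x]
      calc |k0 x| ^ p * U x ≤ |k x| ^ p * (5 ^ p * V x) :=
            mul_le_mul (Real.rpow_le_rpow (abs_nonneg _) (hk0le x) hp0.le) h4 (h0 x)
              (Real.rpow_nonneg (abs_nonneg _) _)
        _ = 5 ^ p * (|k x| ^ p * V x) := by ring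
  have i5 : wInt p V (fun x => x * hilbert f2 x) ≤
      c * (c2 * (c2 * X + c2 * (X * S ^ (p - 1)) * wInt p U g0)) := by
    have j1 : wInt p V (fun x => x * hilbert f2 x) ≤ wInt p U (hilbert f2) := by
      refine wInt_mono (Eventually.of_forall fun x => ?_)
      rw [abs_mul, Real.mul_rpow (abs_nonneg _) (abs_nonneg _), hV]
      simp only
      have h2 : |x| ^ p ≤ (1 + |x|) ^ p := Real.rpow_le_rpow (abs_nonneg _) (by linarith) hp0.le
      have h3 : |x| ^ p * (U x / (1 + |x|) ^ p) ≤ U x := by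
        rw [← mul_div_assoc, div_le_iff₀ (by positivity)]
        nlinarith [h0 x]
      calc |x| ^ p * |hilbert f2 x| ^ p * (U x / (1 + |x|) ^ p)
          = |hilbert f2 x| ^ p * (|x| ^ p * (U x / (1 + |x|) ^ p)) := by ring
        _ ≤ _ := mul_le_mul_of_nonneg_left h3 (Real.rpow_nonneg (abs_nonneg _) _)
    refine j1.trans ((hC f2 hf2i hf2m).trans (mul_le_mul_right ?_ _))
    refine (wInt_comb hp0 hm h0 hh1i.1.aemeasurable _).trans (mul_le_mul_right ?_ _)
    refine add_le_add ?_ (mul_le_mul_left (hpow _ 2 (by norm_num) hm1) _)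
    rw [hX, hc2]
    unfold wInt
    rw [← lintegral_const_mul' _ _ ENNReal.ofReal_ne_top]
    refine lintegral_mono fun x => ?_
    rw [← ENNReal.ofReal_mul (by positivity)]
    apply ENNReal.ofReal_le_ofReal
    by_cases hy : k1 x = 0
    · simp only [hh1]
      rw [hy, zero_div, abs_zero, Real.zero_rpow hp0.ne', zero_mul]
      have := hV0 x
      positivity
    · have h2 := hs1 x hy
      have hxp : 0 < |x| := by linarith
      simp only [hh1]
      rw [abs_div, Real.div_rpow (abs_nonneg _) (abs_nonneg _)]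
      have h3 : (1 + |x|) ^ p ≤ 2 ^ p * |x| ^ p := by
        rw [← Real.mul_rpow (by norm_num) hxp.le]
        exact Real.rpow_le_rpow (by positivity) (by linarith) hp0.le
      have h4 : U x / |x| ^ p ≤ 2 ^ p * V x := by
        rw [hV]
        simp only
        rw [← mul_div_assoc, div_le_div_iff₀ (by positivity) (by positivity)]
        nlinarith [h0 x]
      have h5 : 0 ≤ U x / |x| ^ p := div_nonneg (h0 x) (by positivity)
      calc |k1 x| ^ p / |x| ^ p * U x = |k1 x| ^ p * (U x / |x| ^ p) := by ring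
        _ ≤ |k x| ^ p * (2 ^ p * V x) :=
            mul_le_mul (Real.rpow_le_rpow (abs_nonneg _) (hk1le x) hp0.le) h4 h5
              (Real.rpow_nonneg (abs_nonneg _) _)
        _ = 2 ^ p * (|k x| ^ p * V x) := by ring
  have i6 : wInt p V (fun x => q * (1 / (1 + |x|))) ≤ c51 * (X * S ^ (p - 1)) * Θ := by
    rw [i3]
    exact mul_le_mul_left (hpow _ 51 (by norm_num) hqQ) _
  calc wInt p V (hilbert k) ≤ c2 * (c2 * (c * (c2 * (c5 * X + c5 * (X * S ^ (p - 1)) *
        wInt p U g1)) + c * (c2 * (c2 * X + c2 * (X * S ^ (p - 1)) * wInt p U g0))) +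
        c51 * (X * S ^ (p - 1)) * Θ) := by
        refine i1.trans (mul_le_mul_right (add_le_add (i2.trans (mul_le_mul_right
          (add_le_add i4 i5) _)) i6) _)
    _ = K * X := by
        rw [hK]
        ring

end Pool.Agent.V8H55.HW
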