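import Pool.Agent.V8H55.HW.Tools

set_option autoImplicit false

open MeasureTheory Filter Topology Set

namespace Pool.Agent.V8H55.HW

lemma Admissible.nonneg_const {p : ℝ} {U : ℝ → ℝ} (hU : Admissible p U) :
    ∃ C : ℝ, 0 ≤ C ∧ ∀ f : ℝ → ℝ, Integrable f → ∫ x, f x = 0 →
      wInt p U (hilbert f) ≤ ENNReal.ofReal C * wInt p U f := by
  obtain ⟨C, hC⟩ := hU
  refine ⟨max C 0, le_max_right _ _, fun f hf h0 => (hC f hf h0).trans ?_⟩
  exact mul_le_mul_left (ENNReal.ofReal_le_ofReal (le_max_left _ _)) _

/-- the bound for `f + c g` with a density `g` of small cost -/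
lemma comb_bound {p : ℝ} (hp : 1 < p) {U : ℝ → ℝ} (hm : Measurable U) (h0 : ∀ x, 0 ≤ U x)
    {C : ℝ} (hC : ∀ f : ℝ → ℝ, Integrable f → ∫ x, f x = 0 →
      wInt p U (hilbert f) ≤ ENNReal.ofReal C * wInt p U f)
    {f : ℝ → ℝ} (hf : Integrable f) {g : ℝ → ℝ} (hg : Integrable g) (hg1 : ∫ x, g x = 1)
    {ε : ℝ} (hgε : wInt p U g ≤ ENNReal.ofReal ε) :
    wInt p U (hilbert (fun y => f y + (-∫ x, f x) * g y)) ≤
      ENNReal.ofReal C * (ENNReal.ofReal (2 ^ p) *
        (wInt p U f + ENNReal.ofReal (|(-∫ x, f x)| ^ p * ε))) := by
  refine (hC _ (hf.add (hg.const_mul _)) ?_).trans ?_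
  · show ∫ x, (f x + (-∫ x, f x) * g x) = 0
    rw [integral_add hf (hg.const_mul _), integral_const_mul, hg1]
    ring
  · refine mul_le_mul_right ?_ _
    refine (wInt_comb (by linarith) hm h0 hf.1.aemeasurable _).trans ?_
    refine mul_le_mul_right ?_ _
    gcongr
    rw [ENNReal.ofReal_mul (by positivity)]
    exact mul_le_mul_right hgε _

lemma bound_tendsto (C D p : ℝ) (w : ENNReal) :
    Tendsto (fun n : ℕ => ENNReal.ofReal C * (ENNReal.ofReal (2 ^ p) *
        (w + ENNReal.ofReal (D * (1 / ((n : ℝ) + 1)))))) atTop
      (𝓝 (ENNReal.ofReal C * (ENNReal.ofReal (2 ^ p) * w))) := by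
  have h1 : Tendsto (fun n : ℕ => D * (1 / ((n : ℝ) + 1))) atTop (𝓝 0) := by
    simpa using tendsto_one_div_add_atTop_nhds_zero_nat.const_mul D
  have h2 : Tendsto (fun n : ℕ => w + ENNReal.ofReal (D * (1 / ((n : ℝ) + 1)))) atTop (𝓝 w) := by
    have := (ENNReal.continuous_ofReal.tendsto _).comp h1
    simpa using tendsto_const_nhds.add this
  exact ENNReal.Tendsto.const_mul (ENNReal.Tendsto.const_mul h2 (Or.inr ENNReal.ofReal_ne_top))
    (Or.inr ENNReal.ofReal_ne_top)

/-- Case 1: infinite dual mass at infinity. -/
theorem case_inf {p : ℝ} (hp : 1 < p) {U : ℝ → ℝ} (hm : Measurable U) (h0 : ∀ x, 0 ≤ U x)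
    (hpos : ∀ᵐ x, 0 < U x) (hU : Admissible p U)
    (hinf : ∀ n : ℕ, ∫⁻ x in {x : ℝ | (n : ℝ) < |x|}, ENNReal.ofReal (sig p U x) = ⊤) :
    HilbertBounded p U := by
  obtain ⟨C, hC0, hC⟩ := hU.nonneg_const
  refine ⟨C * 2 ^ p, fun f hf => ?_⟩
  have hA : ∀ n : ℕ, MeasurableSet {x : ℝ | (n : ℝ) < |x|} := fun n =>
    measurableSet_lt measurable_const measurable_id.abs
  choose g hgi hg0 hgs hg1 hgc using fun n : ℕ =>
    conc hp hm h0 hpos (hA n) (hinf n) (show (0 : ℝ) < 1 / ((n : ℝ) + 1) by positivity)
  rw [ENNReal.ofReal_mul hC0, mul_assoc]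
  refine fatou (V := U) (by linarith) hm (f := fun n y => f y + (-∫ x, f x) * g n y)
    (fun n => hf.add ((hgi n).const_mul _)) ?_
    (fun n => comb_bound hp hm h0 hC hf (hgi n) (hg1 n) (hgc n)) (bound_tendsto _ _ _ _)
  refine Eventually.of_forall fun x => ?_
  by_cases hx : ∃ l, HasPV f x l
  · right
    obtain ⟨l, hl⟩ := hx
    have hlim : Tendsto (fun n : ℕ => ∫ y, g n y / (x - y)) atTop (𝓝 0) := by
      have h1 : Tendsto (fun n : ℕ => 1 / ((n : ℝ) - |x|)) atTop (𝓝 0) := by
        have : Tendsto (fun n : ℕ => (n : ℝ) - |x|) atTop atTop :=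
          tendsto_atTop_add_const_right _ _ tendsto_natCast_atTop_atTop
        have h2 := this.inv_tendsto_atTop
        refine h2.congr fun n => ?_
        simp
      refine squeeze_zero_norm' ?_ h1
      obtain ⟨N, hN⟩ := exists_nat_gt |x|
      filter_upwards [eventually_ge_atTop N] with n hn
      have hn' : |x| < n := lt_of_lt_of_le hN (by exact_mod_cast hn)
      rw [Real.norm_eq_abs]
      refine (abs_pv_le (hgi n) (r := (n : ℝ) - |x|) (by linarith) ?_).trans ?_
      · intro y hy
        have hy' : (n : ℝ) < |y| := by
          by_contra hcon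
          exact hy (hgs n y hcon)
        have := abs_sub_abs_le_abs_sub y x
        rw [abs_sub_comm y x] at this
        linarith
      · have : ∫ y, |g n y| = 1 := by
          rw [← hg1 n]
          exact integral_congr_ae (Eventually.of_forall fun y => abs_of_nonneg (hg0 n y))
        rw [this]
    have hh : Tendsto (fun n : ℕ => hilbert (fun y => f y + (-∫ x, f x) * g n y) x) atTop
        (𝓝 (hilbert f x)) := by
      have h2 : Tendsto (fun n : ℕ => (1 / Real.pi) * (l + (-∫ x, f x) * ∫ y, g n y / (x - y)))
          atTop (𝓝 ((1 / Real.pi) * (l + (-∫ x, f x) * 0))) :=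
        (tendsto_const_nhds.add (hlim.const_mul _)).const_mul _
      rw [mul_zero, add_zero, ← hilbert_eq hl] at h2
      refine h2.congr' ?_
      obtain ⟨N, hN⟩ := exists_nat_gt (|x| + 1)
      filter_upwards [eventually_ge_atTop N] with n hn
      have hn' : |x| + 1 < n := lt_of_lt_of_le hN (by exact_mod_cast hn)
      rw [hilbert_eq (hl.add_vanish hf (hgi n) one_pos ?_ _)]
      refine Eventually.of_forall fun y hy => hgs n y ?_
      intro (hmem : (n : ℝ) < |y|)
      have := abs_sub_abs_le_abs_sub y x
      linarith
    exact ((hh.abs).rpow_const (Or.inr (by linarith))).mul_const _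
  · left
    exact hilbert_of_not hx

/-- Case 2: infinite dual mass at a point. -/
theorem case_pt {p : ℝ} (hp : 1 < p) {U : ℝ → ℝ} (hm : Measurable U) (h0 : ∀ x, 0 ≤ U x)
    (hpos : ∀ᵐ x, 0 < U x) (hU : Admissible p U) (a : ℝ)
    (hinf : ∀ n : ℕ, ∫⁻ x in {x : ℝ | |x - a| < 1 / ((n : ℝ) + 1)}, ENNReal.ofReal (sig p U x) = ⊤) :
    HilbertBounded p (fun x => U x / |x - a| ^ p) := by
  obtain ⟨C, hC0, hC⟩ := hU.nonneg_const
  have hp0 : 0 < p := by linarith
  have hWm : Measurable (fun x => U x / |x - a| ^ p) :=
    hm.div (((measurable_id.sub_const a).abs).pow_const p)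
  have hA : ∀ n : ℕ, MeasurableSet {x : ℝ | |x - a| < 1 / ((n : ℝ) + 1)} := fun n =>
    measurableSet_lt ((measurable_id.sub_const a).abs) measurable_const
  choose g hgi hg0 hgs hg1 hgc using fun n : ℕ =>
    conc hp hm h0 hpos (hA n) (hinf n) (show (0 : ℝ) < 1 / ((n : ℝ) + 1) by positivity)
  have hE : ∀ ε : ℝ, MeasurableSet {y : ℝ | ε < |y - a|} := fun ε =>
    measurableSet_lt measurable_const ((measurable_id.sub_const a).abs)
  have hne : ∀ᵐ x : ℝ, x ≠ a := by simp [ae_iff, measure_singleton]
  -- Step 1: functions vanishing near a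
  have step1 : ∀ k : ℝ → ℝ, Integrable k → ∀ ε : ℝ, 0 < ε →
      wInt p (fun x => U x / |x - a| ^ p) (hilbert (indicator {y : ℝ | ε < |y - a|} k)) ≤
        ENNReal.ofReal C * (ENNReal.ofReal (2 ^ p) *
          wInt p (fun x => U x / |x - a| ^ p) (indicator {y : ℝ | ε < |y - a|} k)) := by
    intro k hk ε hε
    set kε := indicator {y : ℝ | ε < |y - a|} k with hkε
    have hkεi : Integrable kε := hk.indicator (hE ε)
    set h : ℝ → ℝ := fun y => kε y / (y - a) with hh
    have hhi : Integrable h := by
      have h1 : h = fun y => kε y * ker ε (y - a) := by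
        funext y
        simp only [hh, hkε, ker, indicator, mem_ofPred_eq]
        split_ifs <;> ring
      rw [h1]
      refine Integrable.mul_bdd (c := 1 / ε) hkεi ?_ ?_
      · exact ((ker_meas' ε).comp (measurable_id.sub_const a)).aestronglyMeasurable
      · exact Eventually.of_forall fun y => by rw [Real.norm_eq_abs]; exact ker_abs_le hε _
    have hmul : (fun y => (y - a) * h y) = kε := by
      funext y
      simp only [hh, hkε, indicator, mem_ofPred_eq]
      split_ifs with h1
      · have : y - a ≠ 0 := by
          intro h2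
          rw [h2, abs_zero] at h1
          linarith
        field_simp
      · ring
    have hcost : wInt p U h = wInt p (fun x => U x / |x - a| ^ p) kε := by
      unfold wInt
      refine lintegral_congr fun y => ?_
      congr 1
      simp only [hh]
      rw [abs_div, Real.div_rpow (abs_nonneg _) (abs_nonneg _)]
      ring
    rw [← hcost]
    set m : ℝ := ∫ x, h x with hmdef
    refine fatou (V := U) hp0 hm (f := fun n y => h y + (-m) * g n y)
      (fun n => hhi.add ((hgi n).const_mul _)) ?_
      (fun n => comb_bound hp hm h0 hC hhi (hgi n) (hg1 n) (hgc n)) (bound_tendsto _ _ _ _)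
    filter_upwards [hne] with x hxa
    by_cases hx : ∃ l, HasPV kε x l
    · right
      obtain ⟨l, hl⟩ := hx
      have hxa' : x - a ≠ 0 := sub_ne_zero.mpr hxa
      have hxpos : 0 < |x - a| := abs_pos.mpr hxa'
      have hPVh : HasPV h x ((l + m) / (x - a)) := by
        refine hasPV_of_mul hhi (by rw [hmul]; exact hkεi) hxa ?_
        rw [hmul]
        exact hl
      -- the densities vanish near x
      have hev : ∀ᶠ n : ℕ in atTop, 1 / ((n : ℝ) + 1) < |x - a| / 2 :=
        tendsto_one_div_add_atTop_nhds_zero_nat.eventually (gt_mem_nhds (by positivity))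
      have hlim : Tendsto (fun n : ℕ => ∫ y, g n y / (x - y)) atTop (𝓝 (1 / (x - a))) := by
        rw [← sub_zero (1 / (x - a))]
        have h1 : Tendsto (fun n : ℕ => (1 / ((n : ℝ) + 1) / |x - a|) / (|x - a| / 2)) atTop
            (𝓝 0) := by
          have := (tendsto_one_div_add_atTop_nhds_zero_nat (𝕜 := ℝ)).div_const |x - a|
          have := this.div_const (|x - a| / 2)
          simpa using this
        have h2 : Tendsto (fun n : ℕ => (1 / (x - a)) - ∫ y, g n y / (x - y)) atTop (𝓝 0) := by
          refine squeeze_zero_norm' ?_ h1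
          filter_upwards [hev] with n hn
          have hsep : ∀ y, g n y ≠ 0 → |y - a| < 1 / ((n : ℝ) + 1) ∧ |x - a| / 2 ≤ |x - y| := by
            intro y hy
            have hy' : |y - a| < 1 / ((n : ℝ) + 1) := by
              by_contra hcon
              exact hy (hgs n y hcon)
            refine ⟨hy', ?_⟩
            have h3 : |x - a| ≤ |x - y| + |y - a| := by
              have := abs_add_le (x - y) (y - a)
              rwa [sub_add_sub_cancel] at this
            linarith
          have hv : ∀ᵐ y, |y - x| < |x - a| / 2 → g n y = 0 := by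
            refine Eventually.of_forall fun y hy => ?_
            by_contra hcon
            have := (hsep y hcon).2
            rw [abs_sub_comm x y] at this
            linarith
          have hi := int_vanish (hgi n) (by positivity) hv
          have e1 : (1 / (x - a)) - ∫ y, g n y / (x - y) =
              -∫ y, (g n y * ((y - a) / (x - a))) / (x - y) := by
            have e2 : (1 / (x - a)) = ∫ y, g n y * (1 / (x - a)) := by
              rw [integral_mul_const, hg1 n, one_mul]
            rw [e2, ← integral_sub ((hgi n).mul_const _) hi, ← integral_neg]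
            refine integral_congr_ae (Eventually.of_forall fun y => ?_)
            simp only
            by_cases hy : g n y = 0
            · simp [hy]
            · have h3 := (hsep y hy).2
              have h4 : x - y ≠ 0 := by
                intro h5
                rw [h5, abs_zero] at h3
                linarith
              field_simp
              ring
          rw [e1, norm_neg, Real.norm_eq_abs]
          have hGi : Integrable (fun y => g n y * ((y - a) / (x - a))) := by
            have h6 : (fun y => g n y * ((y - a) / (x - a))) =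
                fun y => g n y * (indicator {x : ℝ | |x - a| < 1 / ((n : ℝ) + 1)}
                  (fun y => (y - a) / (x - a)) y) := by
              funext y
              by_cases hy : y ∈ {x : ℝ | |x - a| < 1 / ((n : ℝ) + 1)}
              · rw [indicator_of_mem hy]
              · rw [indicator_of_notMem hy, hgs n y hy]
                ring
            rw [h6]
            refine Integrable.mul_bdd (c := 1 / ((n : ℝ) + 1) / |x - a|) (hgi n) ?_ ?_
            · refine (Measurable.indicator ?_ (hA n)).aestronglyMeasurable
              fun_prop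
            · refine Eventually.of_forall fun y => ?_
              by_cases hy : y ∈ {x : ℝ | |x - a| < 1 / ((n : ℝ) + 1)}
              · rw [indicator_of_mem hy, Real.norm_eq_abs, abs_div]
                have hy' : |y - a| < 1 / ((n : ℝ) + 1) := hy
                gcongr
              · rw [indicator_of_notMem hy, norm_zero]
                positivity
          refine (abs_pv_le hGi (r := |x - a| / 2) (by positivity) ?_).trans ?_
          · intro y hy
            have : g n y ≠ 0 := fun h5 => hy (by rw [h5, zero_mul])
            exact (hsep y this).2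
          · refine div_le_div_of_nonneg_right ?_ (by positivity)
            calc ∫ y, |g n y * ((y - a) / (x - a))|
                ≤ ∫ y, g n y * (1 / ((n : ℝ) + 1) / |x - a|) := by
                  refine integral_mono hGi.abs ((hgi n).mul_const _) fun y => ?_
                  simp only
                  rw [abs_mul, abs_of_nonneg (hg0 n y)]
                  by_cases hy : g n y = 0
                  · simp [hy]
                  · refine mul_le_mul_of_nonneg_left ?_ (hg0 n y)
                    rw [abs_div]
                    have := (hsep y hy).1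
                    gcongr
              _ = 1 / ((n : ℝ) + 1) / |x - a| := by
                  rw [integral_mul_const, hg1 n, one_mul]
        have h3 := (tendsto_const_nhds (x := 1 / (x - a))).sub h2
        simpa using h3
      have hconv : Tendsto (fun n : ℕ => hilbert (fun y => h y + (-m) * g n y) x) atTop
          (𝓝 ((1 / Real.pi) * (l / (x - a)))) := by
        have h2 : Tendsto (fun n : ℕ => (1 / Real.pi) * ((l + m) / (x - a) +
            (-m) * ∫ y, g n y / (x - y))) atTop
            (𝓝 ((1 / Real.pi) * ((l + m) / (x - a) + (-m) * (1 / (x - a))))) :=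
          (tendsto_const_nhds.add (hlim.const_mul _)).const_mul _
        have e : (l + m) / (x - a) + (-m) * (1 / (x - a)) = l / (x - a) := by
          field_simp
          ring
        rw [e] at h2
        refine h2.congr' ?_
        filter_upwards [hev] with n hn
        rw [hilbert_eq (hPVh.add_vanish hhi (hgi n) (r := |x - a| / 2) (by positivity) ?_ _)]
        refine Eventually.of_forall fun y hy => hgs n y ?_
        intro (hmem : |y - a| < 1 / ((n : ℝ) + 1))
        have h3 : |x - a| ≤ |x - y| + |y - a| := by
          have := abs_add_le (x - y) (y - a)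
          rwa [sub_add_sub_cancel] at this
        rw [abs_sub_comm y x] at hy
        linarith
      have hfin := ((hconv.abs).rpow_const (p := p) (Or.inr hp0.le)).mul_const (U x)
      convert hfin using 2
      rw [hilbert_eq hl]
      have e5 : |1 / Real.pi * (l / (x - a))| = |1 / Real.pi * l| / |x - a| := by
        rw [← abs_div]
        congr 1
        ring
      rw [e5, Real.div_rpow (abs_nonneg _) (abs_nonneg _)]
      ring
    · left
      exact hilbert_of_not hx
  -- Step 2
  refine ⟨C * 2 ^ p, fun k hk => ?_⟩
  rw [ENNReal.ofReal_mul hC0, mul_assoc]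
  refine fatou (V := fun x => U x / |x - a| ^ p) hp0 hWm
    (f := fun n : ℕ => indicator {y : ℝ | 1 / ((n : ℝ) + 1) < |y - a|} k)
    (fun n => hk.indicator (hE _)) ?_ (B := fun _ => ENNReal.ofReal C * (ENNReal.ofReal (2 ^ p) *
      wInt p (fun x => U x / |x - a| ^ p) k)) (fun n => ?_) tendsto_const_nhds
  · filter_upwards [hne] with x hxa
    by_cases hx : ∃ l, HasPV k x l
    · right
      obtain ⟨l, hl⟩ := hx
      have hxa' : x - a ≠ 0 := sub_ne_zero.mpr hxa
      have hxpos : 0 < |x - a| := abs_pos.mpr hxa'
      have hev : ∀ᶠ n : ℕ in atTop, 1 / ((n : ℝ) + 1) < |x - a| / 2 :=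
        tendsto_one_div_add_atTop_nhds_zero_nat.eventually (gt_mem_nhds (by positivity))
      set r : ℕ → ℝ → ℝ := fun n => indicator {y : ℝ | 1 / ((n : ℝ) + 1) < |y - a|}ᶜ k with hr
      have hri : ∀ n, Integrable (r n) := fun n => hk.indicator (hE _).compl
      have hsep : ∀ n : ℕ, 1 / ((n : ℝ) + 1) < |x - a| / 2 → ∀ y, r n y ≠ 0 →
          |x - a| / 2 ≤ |x - y| := by
        intro n hn y hy
        have hy' : ¬ 1 / ((n : ℝ) + 1) < |y - a| := by
          intro hcon
          apply hy
          have : y ∉ {y : ℝ | 1 / ((n : ℝ) + 1) < |y - a|}ᶜ := fun h => h hcon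
          simp only [hr]
          rw [indicator_of_notMem this]
        rw [not_lt] at hy'
        have h3 : |x - a| ≤ |x - y| + |y - a| := by
          have := abs_add_le (x - y) (y - a)
          rwa [sub_add_sub_cancel] at this
        linarith
      have hsplit : ∀ n : ℕ, indicator {y : ℝ | 1 / ((n : ℝ) + 1) < |y - a|} k =
          fun y => k y + (-1) * r n y := by
        intro n
        funext y
        have := congrFun (indicator_self_add_compl {y : ℝ | 1 / ((n : ℝ) + 1) < |y - a|} k) y
        simp only [Pi.add_apply] at this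
        simp only [hr]
        linarith
      have hlim : Tendsto (fun n : ℕ => ∫ y, r n y / (x - y)) atTop (𝓝 0) := by
        have h1 := tendsto_mass hk.abs a
        have hseq : Tendsto (fun n : ℕ => 1 / ((n : ℝ) + 1)) atTop (𝓝[>] 0) := by
          rw [tendsto_nhdsWithin_iff]
          exact ⟨tendsto_one_div_add_atTop_nhds_zero_nat, Eventually.of_forall fun n => by
            show (0 : ℝ) < _
            positivity⟩
        have h2 := h1.comp hseq
        have h3 : Tendsto (fun n : ℕ => (∫ y, |r n y|) / (|x - a| / 2)) atTop (𝓝 0) := by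
          have h4 : Tendsto (fun n : ℕ => ∫ y, |r n y|) atTop (𝓝 0) := by
            have h5 := (tendsto_const_nhds (x := ∫ y, |k y|)).sub h2
            rw [sub_self] at h5
            refine h5.congr fun n => ?_
            simp only [Function.comp]
            rw [← integral_indicator (hE _), ← integral_sub hk.abs (hk.abs.indicator (hE _))]
            refine integral_congr_ae (Eventually.of_forall fun y => ?_)
            simp only [hr]
            by_cases hy : y ∈ {y : ℝ | 1 / ((n : ℝ) + 1) < |y - a|}
            · have hy2 : y ∉ {y : ℝ | 1 / ((n : ℝ) + 1) < |y - a|}ᶜ := fun h => h hy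
              rw [indicator_of_mem hy, indicator_of_notMem hy2, sub_self, abs_zero]
            · have hy2 : y ∈ {y : ℝ | 1 / ((n : ℝ) + 1) < |y - a|}ᶜ := hy
              rw [indicator_of_notMem hy, indicator_of_mem hy2, sub_zero]
          simpa using h4.div_const (|x - a| / 2)
        refine squeeze_zero_norm' ?_ h3
        filter_upwards [hev] with n hn
        rw [Real.norm_eq_abs]
        exact abs_pv_le (hri n) (by positivity) (hsep n hn)
      have hconv : Tendsto (fun n : ℕ =>
          hilbert (indicator {y : ℝ | 1 / ((n : ℝ) + 1) < |y - a|} k) x) atTop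
          (𝓝 (hilbert k x)) := by
        have h2 : Tendsto (fun n : ℕ => (1 / Real.pi) * (l + (-1) * ∫ y, r n y / (x - y))) atTop
            (𝓝 ((1 / Real.pi) * (l + (-1) * 0))) :=
          (tendsto_const_nhds.add (hlim.const_mul _)).const_mul _
        rw [mul_zero, add_zero, ← hilbert_eq hl] at h2
        refine h2.congr' ?_
        filter_upwards [hev] with n hn
        rw [hsplit n, hilbert_eq (hl.add_vanish hk (hri n) (r := |x - a| / 2) (by positivity) ?_ _)]
        refine Eventually.of_forall fun y hy => ?_
        by_contra hcon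
        have := hsep n hn y hcon
        rw [abs_sub_comm y x] at hy
        linarith
      exact ((hconv.abs).rpow_const (Or.inr hp0.le)).mul_const _
    · left
      exact hilbert_of_not hx
  · refine (step1 k hk _ (by positivity)).trans ?_
    refine mul_le_mul_right (mul_le_mul_right ?_ _) _
    refine wInt_mono (Eventually.of_forall fun y => ?_)
    refine mul_le_mul_of_nonneg_right ?_ (div_nonneg (h0 y) (Real.rpow_nonneg (abs_nonneg _) _))
    refine Real.rpow_le_rpow (abs_nonneg _) ?_ hp0.le
    by_cases hy : y ∈ {y : ℝ | 1 / ((n : ℝ) + 1) < |y - a|}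
    · rw [indicator_of_mem hy]
    · rw [indicator_of_notMem hy, abs_zero]
      exact abs_nonneg _

end Pool.Agent.V8H55.HW
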