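import Pool.Agent.V8H55.HW.CaseFin3

set_option autoImplicit false

open MeasureTheory Filter Topology Set

namespace Pool.Agent.V8H55.HW

/-- truncation at large distance -/
lemma tendsto_trunc {f : ℝ → ℝ} (hf : Integrable f) (a : ℝ) :
    Tendsto (fun n : ℕ => ∫ y, indicator {y : ℝ | |y - a| ≤ n} f y) atTop (𝓝 (∫ y, f y)) := by
  have hE : ∀ n : ℕ, MeasurableSet {y : ℝ | |y - a| ≤ n} := fun n =>
    measurableSet_le (measurable_id.sub_const a).abs measurable_const
  refine tendsto_integral_of_dominated_convergence (fun y => ‖f y‖)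
    (fun n => hf.1.indicator (hE n)) hf.norm
    (fun n => Eventually.of_forall fun y => norm_indicator_le_norm_self _ _) ?_
  refine Eventually.of_forall fun y => ?_
  refine Tendsto.congr' ?_ tendsto_const_nhds
  obtain ⟨N, hN⟩ := exists_nat_ge |y - a|
  filter_upwards [eventually_ge_atTop N] with n hn
  have : y ∈ {y : ℝ | |y - a| ≤ n} := hN.trans (by exact_mod_cast hn)
  rw [indicator_of_mem this]

/-- If `U / |x - a|^p` gives a bounded Hilbert transform then `U` is admissible. -/
theorem adm_of_pt {p : ℝ} (hp0 : 0 < p) {U : ℝ → ℝ} (hm : Measurable U) (h0 : ∀ x, 0 ≤ U x)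
    (a : ℝ) (hB : HilbertBounded p (fun x => U x / |x - a| ^ p)) : Admissible p U := by
  obtain ⟨C, hC⟩ := hB
  refine ⟨C, fun f hf hf0 => ?_⟩
  have hVm : Measurable (fun x => U x / |x - a| ^ p) :=
    hm.div (((measurable_id.sub_const a).abs).pow_const p)
  have hE : ∀ n : ℕ, MeasurableSet {y : ℝ | |y - a| ≤ n} := fun n =>
    measurableSet_le (measurable_id.sub_const a).abs measurable_const
  set F : ℕ → ℝ → ℝ := fun n => indicator {y : ℝ | |y - a| ≤ n} f with hF
  have hFi : ∀ n, Integrable (F n) := fun n => hf.indicator (hE n)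
  set k : ℕ → ℝ → ℝ := fun n y => (y - a) * F n y with hk
  have hki : ∀ n, Integrable (k n) := by
    intro n
    have e : k n = fun y => f y * indicator {y : ℝ | |y - a| ≤ n} (fun y => y - a) y := by
      funext y
      simp only [hk, hF]
      by_cases hy : y ∈ {y : ℝ | |y - a| ≤ n}
      · rw [indicator_of_mem hy, indicator_of_mem hy]; ring
      · rw [indicator_of_notMem hy, indicator_of_notMem hy]; ring
    rw [e]
    refine Integrable.mul_bdd (c := n) hf ?_ ?_
    · exact ((measurable_id.sub_const a).indicator (hE n)).aestronglyMeasurable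
    · refine Eventually.of_forall fun y => ?_
      by_cases hy : y ∈ {y : ℝ | |y - a| ≤ n}
      · rw [indicator_of_mem hy, Real.norm_eq_abs]; exact hy
      · rw [indicator_of_notMem hy, norm_zero]; positivity
  have hne : ∀ᵐ x : ℝ, x ≠ a := by simp [ae_iff, measure_singleton]
  refine fatou (V := fun x => U x / |x - a| ^ p) hp0 hVm (f := k) hki ?_
    (B := fun _ => ENNReal.ofReal C * wInt p U f) (fun n => ?_) tendsto_const_nhds
  · filter_upwards [hne] with x hxa
    by_cases hx : ∃ l, HasPV f x l
    · right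
      obtain ⟨l, hl⟩ := hx
      have hxa' : x - a ≠ 0 := sub_ne_zero.mpr hxa
      have hxpos : 0 < |x - a| := abs_pos.mpr hxa'
      set r : ℕ → ℝ → ℝ := fun n => indicator {y : ℝ | |y - a| ≤ n}ᶜ f with hr
      have hri : ∀ n, Integrable (r n) := fun n => hf.indicator (hE n).compl
      have hsep : ∀ n : ℕ, |x - a| + 1 ≤ n → ∀ y, r n y ≠ 0 → 1 ≤ |x - y| := by
        intro n hn y hy
        have hy' : ¬ |y - a| ≤ n := by
          intro hcon
          apply hy
          have : y ∉ {y : ℝ | |y - a| ≤ n}ᶜ := fun h => h hcon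
          simp only [hr]
          rw [indicator_of_notMem this]
        rw [not_le] at hy'
        have h3 : |y - a| ≤ |x - y| + |x - a| := by
          have := abs_add_le (y - x) (x - a)
          rwa [sub_add_sub_cancel, abs_sub_comm y x] at this
        linarith
      have hsplit : ∀ n : ℕ, F n = fun y => f y + (-1) * r n y := by
        intro n
        funext y
        have := congrFun (indicator_self_add_compl {y : ℝ | |y - a| ≤ n} f) y
        simp only [Pi.add_apply] at this
        simp only [hr, hF]
        linarith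
      have hrlim : Tendsto (fun n : ℕ => ∫ y, |r n y|) atTop (𝓝 0) := by
        have h5 := (tendsto_const_nhds (x := ∫ y, |f y|)).sub (tendsto_trunc hf.abs a)
        rw [sub_self] at h5
        refine h5.congr fun n => ?_
        rw [← integral_sub hf.abs (hf.abs.indicator (hE _))]
        refine integral_congr_ae (Eventually.of_forall fun y => ?_)
        simp only [hr]
        by_cases hy : y ∈ {y : ℝ | |y - a| ≤ n}
        · have hy2 : y ∉ {y : ℝ | |y - a| ≤ n}ᶜ := fun h => h hy
          rw [indicator_of_mem hy, indicator_of_notMem hy2, sub_self, abs_zero]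
        · have hy2 : y ∈ {y : ℝ | |y - a| ≤ n}ᶜ := hy
          rw [indicator_of_notMem hy, indicator_of_mem hy2, sub_zero]
      have hev : ∀ᶠ n : ℕ in atTop, |x - a| + 1 ≤ n := by
        obtain ⟨N, hN⟩ := exists_nat_ge (|x - a| + 1)
        filter_upwards [eventually_ge_atTop N] with n hn
        exact hN.trans (by exact_mod_cast hn)
      have hlim : Tendsto (fun n : ℕ => ∫ y, r n y / (x - y)) atTop (𝓝 0) := by
        refine squeeze_zero_norm' ?_ hrlim
        filter_upwards [hev] with n hn
        rw [Real.norm_eq_abs]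
        have := abs_pv_le (hri n) one_pos (hsep n hn)
        rwa [div_one] at this
      have hmass : Tendsto (fun n : ℕ => ∫ y, F n y) atTop (𝓝 0) := by
        rw [← hf0]
        exact tendsto_trunc hf a
      have hconv : Tendsto (fun n : ℕ => hilbert (k n) x) atTop
          (𝓝 ((1 / Real.pi) * ((x - a) * l))) := by
        have h2 : Tendsto (fun n : ℕ => (1 / Real.pi) *
            ((x - a) * (l + (-1) * ∫ y, r n y / (x - y)) - ∫ y, F n y)) atTop
            (𝓝 ((1 / Real.pi) * ((x - a) * (l + (-1) * 0) - 0))) :=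
          (((tendsto_const_nhds.add (hlim.const_mul _)).const_mul _).sub hmass).const_mul _
        rw [mul_zero, add_zero, sub_zero] at h2
        refine h2.congr' ?_
        filter_upwards [hev] with n hn
        have hPVF : HasPV (F n) x (l + (-1) * ∫ y, r n y / (x - y)) := by
          rw [hsplit n]
          refine hl.add_vanish hf (hri n) one_pos ?_ _
          refine Eventually.of_forall fun y hy => ?_
          by_contra hcon
          have := hsep n hn y hcon
          rw [abs_sub_comm y x] at hy
          linarith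
        rw [hilbert_eq (hasPV_mul (hFi n) (hki n) hPVF)]
      have hfin := ((hconv.abs).rpow_const (p := p) (Or.inr hp0.le)).mul_const (U x / |x - a| ^ p)
      convert hfin using 2
      rw [hilbert_eq hl]
      have e5 : |1 / Real.pi * ((x - a) * l)| = |1 / Real.pi * l| * |x - a| := by
        rw [← abs_mul]
        congr 1
        ring
      rw [e5, Real.mul_rpow (abs_nonneg _) (abs_nonneg _)]
      have : |x - a| ^ p ≠ 0 := (Real.rpow_pos_of_pos hxpos p).ne'
      field_simp
    · left
      exact hilbert_of_not hx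
  · refine (hC (k n) (hki n)).trans (mul_le_mul_right ?_ _)
    refine wInt_mono (Eventually.of_forall fun y => ?_)
    simp only [hk, hF]
    by_cases hy : y ∈ {y : ℝ | |y - a| ≤ n}
    · rw [indicator_of_mem hy, abs_mul, Real.mul_rpow (abs_nonneg _) (abs_nonneg _)]
      rcases eq_or_ne (|y - a| ^ p) 0 with h | h
      · rw [h]
        simp only [zero_mul, div_zero, mul_zero]
        exact mul_nonneg (Real.rpow_nonneg (abs_nonneg _) _) (h0 y)
      · apply le_of_eq
        field_simp
    · rw [indicator_of_notMem hy, mul_zero, abs_zero, Real.zero_rpow hp0.ne', zero_mul]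
      exact mul_nonneg (Real.rpow_nonneg (abs_nonneg _) _) (h0 y)

/-- If `U / (1 + |x|)^p` gives a bounded Hilbert transform then `U` is admissible. -/
theorem adm_of_fin {p : ℝ} (hp0 : 0 < p) {U : ℝ → ℝ} (hm : Measurable U) (h0 : ∀ x, 0 ≤ U x)
    (hB : HilbertBounded p (fun x => U x / (1 + |x|) ^ p)) : Admissible p U := by
  set V : ℝ → ℝ := fun x => U x / (1 + |x|) ^ p with hV
  have hVm : Measurable V := hm.div ((measurable_id.abs.const_add 1).pow_const p)
  have hone : ∀ x : ℝ, (1 : ℝ) ≤ (1 + |x|) ^ p := fun x =>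
    Real.one_le_rpow (by linarith [abs_nonneg x]) hp0.le
  have hV0 : ∀ x, 0 ≤ V x := fun x => div_nonneg (h0 x) (by linarith [hone x])
  have hVU : ∀ x, V x ≤ U x := fun x => div_le_self (h0 x) (hone x)
  set U' : ℝ → ℝ := fun x => |x| ^ p * V x with hU'
  have hU'm : Measurable U' := (measurable_id.abs.pow_const p).mul hVm
  have hU'0 : ∀ x, 0 ≤ U' x := fun x => mul_nonneg (Real.rpow_nonneg (abs_nonneg _) _) (hV0 x)
  have hU'U : ∀ x, U' x ≤ U x := by
    intro x
    rw [hU', hV]
    simp only
    have h2 : |x| ^ p ≤ (1 + |x|) ^ p := Real.rpow_le_rpow (abs_nonneg _) (by linarith) hp0.le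
    have := hone x
    rw [← mul_div_assoc, div_le_iff₀ (by positivity)]
    nlinarith [h0 x]
  have hne : ∀ᵐ x : ℝ, x ≠ 0 := by simp [ae_iff, measure_singleton]
  have hweq : ∀ F : ℝ → ℝ, wInt p (fun x => U' x / |x - 0| ^ p) F = wInt p V F := by
    intro F
    unfold wInt
    refine lintegral_congr_ae ?_
    filter_upwards [hne] with x hx
    have : |x| ^ p ≠ 0 := (Real.rpow_pos_of_pos (abs_pos.mpr hx) p).ne'
    rw [hU']
    simp only [sub_zero]
    congr 2
    field_simp
  have hA' : Admissible p U' := by
    refine adm_of_pt hp0 hU'm hU'0 0 ?_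
    obtain ⟨C, hC⟩ := hB
    refine ⟨C, fun f hf => ?_⟩
    rw [hweq, hweq]
    exact hC f hf
  obtain ⟨C1, hC10, hC1⟩ := hA'.nonneg_const
  obtain ⟨C2, hC20, hC2⟩ := hB.admissible.nonneg_const
  refine ⟨2 ^ p * (C2 + C1), fun f hf hf0 => ?_⟩
  have hHm := hilbert_measurable hf
  calc wInt p U (hilbert f) ≤ ENNReal.ofReal (2 ^ p) * (wInt p V (hilbert f) + wInt p U' (hilbert f)) := by
        unfold wInt
        rw [← lintegral_add_left' (wInt_meas hVm hHm.aemeasurable),
          ← lintegral_const_mul' _ _ ENNReal.ofReal_ne_top]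
        refine lintegral_mono fun x => ?_
        have a1 : 0 ≤ |hilbert f x| ^ p * V x := mul_nonneg (Real.rpow_nonneg (abs_nonneg _) _) (hV0 x)
        have a2 : 0 ≤ |hilbert f x| ^ p * U' x := mul_nonneg (Real.rpow_nonneg (abs_nonneg _) _) (hU'0 x)
        rw [← ENNReal.ofReal_add a1 a2, ← ENNReal.ofReal_mul (by positivity)]
        apply ENNReal.ofReal_le_ofReal
        have h1 := rpow_add_le_two hp0.le zero_le_one (abs_nonneg x)
        rw [Real.one_rpow] at h1
        have h2 : U x ≤ 2 ^ p * (V x + U' x) := by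
          have e : U x = (1 + |x|) ^ p * V x := by
            rw [hV]
            simp only
            have := hone x
            field_simp
          calc U x = (1 + |x|) ^ p * V x := e
            _ ≤ 2 ^ p * (1 + |x| ^ p) * V x := mul_le_mul_of_nonneg_right h1 (hV0 x)
            _ = 2 ^ p * (V x + U' x) := by rw [hU']; ring
        calc |hilbert f x| ^ p * U x ≤ |hilbert f x| ^ p * (2 ^ p * (V x + U' x)) :=
              mul_le_mul_of_nonneg_left h2 (Real.rpow_nonneg (abs_nonneg _) _)
          _ = 2 ^ p * (|hilbert f x| ^ p * V x + |hilbert f x| ^ p * U' x) := by ring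
    _ ≤ ENNReal.ofReal (2 ^ p) * (ENNReal.ofReal C2 * wInt p U f + ENNReal.ofReal C1 * wInt p U f) := by
        refine mul_le_mul_right (add_le_add ?_ ?_) _
        · refine (hC2 f hf hf0).trans (mul_le_mul_right (wInt_mono ?_) _)
          exact Eventually.of_forall fun x =>
            mul_le_mul_of_nonneg_left (hVU x) (Real.rpow_nonneg (abs_nonneg _) _)
        · refine (hC1 f hf hf0).trans (mul_le_mul_right (wInt_mono ?_) _)
          exact Eventually.of_forall fun x =>
            mul_le_mul_of_nonneg_left (hU'U x) (Real.rpow_nonneg (abs_nonneg _) _)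
    _ = ENNReal.ofReal (2 ^ p * (C2 + C1)) * wInt p U f := by
        rw [ENNReal.ofReal_mul (by positivity), ENNReal.ofReal_add hC20 hC10]
        ring

/-- The characterisation of the admissible weights by bounded Hilbert transforms. -/
theorem main_iff {p : ℝ} (hp : 1 < p) {U : ℝ → ℝ} (hU : IsWeight U) :
    Admissible p U ↔ HilbertBounded p U ∨ (∃ a : ℝ, HilbertBounded p (fun x => U x / |x - a| ^ p)) ∨
      HilbertBounded p (fun x => U x / (1 + |x|) ^ p) := by
  have hp0 : 0 < p := by linarith
  have hm := hU.meas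
  have h0 := hU.nonneg
  constructor
  · intro hA
    have hpos := pos_ae hp0 hm h0 hU.ne_zero hA
    by_cases h1 : ∃ a : ℝ, ∀ n : ℕ, ∫⁻ x in {x : ℝ | |x - a| < 1 / ((n : ℝ) + 1)},
        ENNReal.ofReal (sig p U x) = ⊤
    · obtain ⟨a, ha⟩ := h1
      exact Or.inr (Or.inl ⟨a, case_pt hp hm h0 hpos hA a ha⟩)
    by_cases h2 : ∀ n : ℕ, ∫⁻ x in {x : ℝ | (n : ℝ) < |x|}, ENNReal.ofReal (sig p U x) = ⊤
    · exact Or.inl (case_inf hp hm h0 hpos hA h2)
    refine Or.inr (Or.inr (case_fin hp hU hpos hA ?_))
    push Not at h1 h2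
    obtain ⟨N, hN⟩ := h2
    set μ : Measure ℝ := volume.withDensity (fun x => ENNReal.ofReal (sig p U x)) with hμ
    have hK : μ (Icc (-(N : ℝ)) N) < ⊤ := by
      refine IsCompact.measure_lt_top_of_nhdsWithin isCompact_Icc fun a _ => ?_
      obtain ⟨n, hn⟩ := h1 a
      refine ⟨{x : ℝ | |x - a| < 1 / ((n : ℝ) + 1)}, ?_, ?_⟩
      · apply mem_nhdsWithin_of_mem_nhds
        have : {x : ℝ | |x - a| < 1 / ((n : ℝ) + 1)} = Metric.ball a (1 / ((n : ℝ) + 1)) := by
          ext x
          rw [Metric.mem_ball, Real.dist_eq]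
          rfl
        rw [this]
        exact Metric.ball_mem_nhds a (by positivity)
      · have hms : MeasurableSet {x : ℝ | |x - a| < 1 / ((n : ℝ) + 1)} :=
          measurableSet_lt (measurable_id.sub_const a).abs measurable_const
        rw [hμ, withDensity_apply _ hms]
        exact lt_top_iff_ne_top.mpr hn
    rw [hμ, withDensity_apply _ measurableSet_Icc] at hK
    have hsplit := lintegral_add_compl (μ := volume) (fun x => ENNReal.ofReal (sig p U x))
      (measurableSet_Icc (a := -(N : ℝ)) (b := N))
    have hcomp : (Icc (-(N : ℝ)) N)ᶜ = {x : ℝ | (N : ℝ) < |x|} := by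
      ext x
      simp only [mem_compl_iff, mem_Icc, mem_ofPred_eq, ← abs_le, not_le]
    rw [hcomp] at hsplit
    rw [← hsplit]
    exact (ENNReal.add_lt_top.mpr ⟨hK, lt_top_iff_ne_top.mpr hN⟩).ne
  · rintro (h | ⟨a, h⟩ | h)
    · exact h.admissible
    · exact adm_of_pt hp0 hm h0 a h
    · exact adm_of_fin hp0 hm h0 h

end Pool.Agent.V8H55.HW
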