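import Mathlib

/-!
# Weighted inequalities for the Hilbert transform: definitions
-/

set_option autoImplicit false

open MeasureTheory Filter Topology

namespace Pool.Agent.V8H55.HW

/-- The truncated integral `∫_{|y - x| > δ} f(y) / (x - y) dy`. -/
noncomputable def truncH (f : ℝ → ℝ) (δ x : ℝ) : ℝ :=
  ∫ y in {y : ℝ | δ < |y - x|}, f y / (x - y)

/-- The principal value of `∫ f(y) / (x - y) dy` exists and is `l`. -/
def HasPV (f : ℝ → ℝ) (x l : ℝ) : Prop :=
  Tendsto (fun δ : ℝ => truncH f δ x) (𝓝[>] 0) (𝓝 l)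

open Classical in
/-- The Hilbert transform `(1/π) p.v. ∫ f(y) / (x - y) dy` at the points `x` where the principal
value exists (almost every point if `f` is integrable), and `0` at the other points. -/
noncomputable def hilbert (f : ℝ → ℝ) (x : ℝ) : ℝ :=
  if h : ∃ l, HasPV f x l then (1 / Real.pi) * h.choose else 0

/-- A weight: measurable, nonnegative, locally integrable, not almost everywhere zero. -/
structure IsWeight (U : ℝ → ℝ) : Prop where
  meas : Measurable U
  nonneg : ∀ x, 0 ≤ U x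
  loc : LocallyIntegrable U
  ne_zero : ¬ U =ᵐ[volume] 0

/-- `∫ |g|^p U`, with values in `[0, ∞]`. -/
noncomputable def wInt (p : ℝ) (U g : ℝ → ℝ) : ENNReal :=
  ∫⁻ x, ENNReal.ofReal (|g x| ^ p * U x)

/-- `U` is admissible: `∫ |Hf|^p U ≤ C ∫ |f|^p U` for all integrable `f` with `∫ f = 0`. -/
def Admissible (p : ℝ) (U : ℝ → ℝ) : Prop :=
  ∃ C : ℝ, ∀ f : ℝ → ℝ, Integrable f → ∫ x, f x = 0 →
    wInt p U (hilbert f) ≤ ENNReal.ofReal C * wInt p U f

/-- The Hilbert transform is bounded for the weight `W` without a condition on the mean: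
`∫ |Hf|^p W ≤ C ∫ |f|^p W` for all integrable `f`. -/
def HilbertBounded (p : ℝ) (W : ℝ → ℝ) : Prop :=
  ∃ C : ℝ, ∀ f : ℝ → ℝ, Integrable f → wInt p W (hilbert f) ≤ ENNReal.ofReal C * wInt p W f

/-- The Muckenhoupt class `A_p`. -/
structure IsAp (p : ℝ) (W : ℝ → ℝ) : Prop where
  weight : IsWeight W
  pos : ∀ᵐ x, 0 < W x
  dual : LocallyIntegrable (fun x => W x ^ (-(1 / (p - 1))))
  bound : ∃ C : ℝ, ∀ a b : ℝ, a < b →
    ((b - a)⁻¹ * ∫ x in a..b, W x) * ((b - a)⁻¹ * ∫ x in a..b, W x ^ (-(1 / (p - 1)))) ^ (p - 1) ≤ C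

end Pool.Agent.V8H55.HW
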