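import Pool.Agent.V8H55.HW.Basic

set_option autoImplicit false

open MeasureTheory Filter Topology Set

namespace Pool.Agent.V8H55.HW

lemma HilbertBounded.admissible {p : ℝ} {W : ℝ → ℝ} (h : HilbertBounded p W) : Admissible p W := by
  obtain ⟨C, hC⟩ := h
  exact ⟨C, fun f hf _ => hC f hf⟩

/-- `(y - c) (1/(x-y) - 1/(x-c)) > 0` for `y ≠ c` on the same side of `x` -/
lemma kernel_pos {x y c : ℝ} (h : 0 < (x - y) * (x - c)) (hyc : y ≠ c) :
    0 < (y - c) * (1 / (x - y) - 1 / (x - c)) := by
  have h1 : x - y ≠ 0 := fun h0 => by rw [h0] at h; simp at h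
  have h2 : x - c ≠ 0 := fun h0 => by rw [h0] at h; simp at h
  have e : (y - c) * (1 / (x - y) - 1 / (x - c)) = (y - c) ^ 2 / ((x - y) * (x - c)) := by
    field_simp
    ring
  rw [e]
  have : 0 < (y - c) ^ 2 := by
    have : y - c ≠ 0 := sub_ne_zero.mpr hyc
    positivity
  positivity

/-- If `U` vanishes on a subset of positive measure of `[a,b]`, it vanishes off `[a,b]`. -/
lemma zero_off {p : ℝ} (hp : 0 < p) {U : ℝ → ℝ} (hm : Measurable U)
    (h0 : ∀ x, 0 ≤ U x) (hU : Admissible p U) {a b : ℝ} {E : Set ℝ}
    (hE : MeasurableSet E) (hEab : E ⊆ Icc a b) (hpos : 0 < volume E) (hz : ∀ x ∈ E, U x = 0) :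
    ∀ᵐ x, x ∉ Icc a b → U x = 0 := by
  obtain ⟨C, hC⟩ := hU
  have hfin : volume E ≠ ⊤ := ne_top_of_le_ne_top (by simp) (measure_mono hEab)
  have hEr : 0 < (volume E).toReal := ENNReal.toReal_pos hpos.ne' hfin
  -- bounded integrable functions on E
  have hint : ∀ φ : ℝ → ℝ, ContinuousOn φ (Icc a b) → Integrable (indicator E φ) := by
    intro φ hφ
    rw [integrable_indicator_iff hE]
    exact (hφ.integrableOn_Icc).mono_set hEab
  have hid : Integrable (indicator E (fun y : ℝ => y)) := hint _ continuousOn_id
  have hone : Integrable (indicator E (fun _ : ℝ => (1 : ℝ))) := hint _ continuousOn_const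
  set c : ℝ := (∫ y, indicator E (fun y : ℝ => y) y) / (volume E).toReal with hc
  have hvol : ∫ y, indicator E (fun _ : ℝ => (1 : ℝ)) y = (volume E).toReal := by
    rw [integral_indicator hE]
    simp [Measure.real]
  have hcI : c ∈ Icc a b := by
    have h1 : ∫ y, indicator E (fun y : ℝ => y) y ≤ ∫ y, b * indicator E (fun _ : ℝ => (1 : ℝ)) y := by
      refine integral_mono hid (hone.const_mul b) fun y => ?_
      by_cases hy : y ∈ E
      · simp [indicator_of_mem hy, (hEab hy).2]
      · simp [indicator_of_notMem hy]
    have h2 : ∫ y, a * indicator E (fun _ : ℝ => (1 : ℝ)) y ≤ ∫ y, indicator E (fun y : ℝ => y) y := by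
      refine integral_mono (hone.const_mul a) hid fun y => ?_
      by_cases hy : y ∈ E
      · simp [indicator_of_mem hy, (hEab hy).1]
      · simp [indicator_of_notMem hy]
    rw [integral_const_mul, hvol] at h1 h2
    constructor
    · rw [hc, le_div_iff₀ hEr]; exact h2
    · rw [hc, div_le_iff₀ hEr]; exact h1
  set f : ℝ → ℝ := indicator E (fun y => y - c) with hf
  have hfint : Integrable f := hint _ (by fun_prop)
  have hf0 : ∫ y, f y = 0 := by
    have e : f = fun y => indicator E (fun y : ℝ => y) y - c * indicator E (fun _ : ℝ => (1 : ℝ)) y := by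
      funext y
      by_cases hy : y ∈ E
      · simp [hf, indicator_of_mem hy]
      · simp [hf, indicator_of_notMem hy]
    rw [e, integral_sub hid (hone.const_mul c), integral_const_mul, hvol, hc]
    field_simp
    ring
  have hfU : wInt p U f = 0 := by
    unfold wInt
    rw [lintegral_eq_zero_iff']
    · refine Eventually.of_forall fun y => ?_
      by_cases hy : y ∈ E
      · simp [hz y hy]
      · simp [hf, indicator_of_notMem hy, Real.zero_rpow hp.ne']
    · have : AEMeasurable f := hfint.1.aemeasurable
      have h2 : AEMeasurable (fun y => |f y| ^ p) := (this.abs).pow_const p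
      exact (h2.mul hm.aemeasurable).ennreal_ofReal
  have hH := hC f hfint hf0
  rw [hfU, mul_zero, nonpos_iff_eq_zero] at hH
  unfold wInt at hH
  have hHm := hilbert_measurable hfint
  rw [lintegral_eq_zero_iff' (by
    exact (((hHm.abs).pow_const p).mul hm).ennreal_ofReal.aemeasurable)] at hH
  filter_upwards [hH] with x hx hxI
  simp only [Pi.zero_apply, ENNReal.ofReal_eq_zero] at hx
  by_contra hne
  have hUx : 0 < U x := lt_of_le_of_ne (h0 x) (Ne.symm hne)
  -- the Hilbert transform does not vanish at x
  have hxs : (x < a) ∨ (b < x) := by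
    by_contra hcon
    push Not at hcon
    exact hxI hcon
  obtain ⟨r, hr, hrv⟩ : ∃ r : ℝ, 0 < r ∧ ∀ y ∈ Icc a b, r ≤ |y - x| := by
    rcases hxs with h | h
    · refine ⟨a - x, by linarith, fun y hy => ?_⟩
      rw [abs_of_pos (by linarith [hy.1])]
      linarith [hy.1]
    · refine ⟨x - b, by linarith, fun y hy => ?_⟩
      rw [abs_of_neg (by linarith [hy.2])]
      linarith [hy.2]
  have hv : ∀ᵐ y, |y - x| < r → f y = 0 := by
    refine Eventually.of_forall fun y hy => ?_
    by_cases hyE : y ∈ E
    · exact absurd (hrv y (hEab hyE)) (not_le.mpr hy)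
    · simp [hf, indicator_of_notMem hyE]
  have hPV := hasPV_of_vanish hr hv
  have hpos' : 0 < ∫ y, f y / (x - y) := by
    have hi := int_vanish hfint hr hv
    have e1 : ∫ y, f y / (x - y) = ∫ y, (f y / (x - y) - f y * (1 / (x - c))) := by
      rw [integral_sub hi (hfint.mul_const _), integral_mul_const, hf0, zero_mul, sub_zero]
    rw [e1, integral_pos_iff_support_of_nonneg]
    · have hsub : E \ {c} ⊆ Function.support (fun y => f y / (x - y) - f y * (1 / (x - c))) := by
        intro y hy
        have h1 : 0 < (y - c) * (1 / (x - y) - 1 / (x - c)) := by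
          refine kernel_pos ?_ hy.2
          rcases hxs with h | h
          · exact mul_pos_of_neg_of_neg (by linarith [(hEab hy.1).1]) (by linarith [hcI.1])
          · exact mul_pos (by linarith [(hEab hy.1).2]) (by linarith [hcI.2])
        simp only [Function.mem_support, hf, indicator_of_mem hy.1]
        intro h0
        have : (y - c) * (1 / (x - y) - 1 / (x - c)) = (y - c) / (x - y) - (y - c) * (1 / (x - c)) := by
          ring
        rw [this, h0] at h1
        exact lt_irrefl _ h1
      refine lt_of_lt_of_le ?_ (measure_mono hsub)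
      rw [measure_sdiff_null (by simp)]
      exact hpos
    · intro y
      by_cases hyE : y ∈ E
      · simp only [hf, indicator_of_mem hyE, Pi.zero_apply]
        rcases eq_or_ne y c with h | h
        · simp [h]
        · have h1 : 0 < (y - c) * (1 / (x - y) - 1 / (x - c)) := by
            refine kernel_pos ?_ h
            rcases hxs with h | h
            · exact mul_pos_of_neg_of_neg (by linarith [(hEab hyE).1]) (by linarith [hcI.1])
            · exact mul_pos (by linarith [(hEab hyE).2]) (by linarith [hcI.2])
          have : (y - c) * (1 / (x - y) - 1 / (x - c)) =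
              (y - c) / (x - y) - (y - c) * (1 / (x - c)) := by ring
          rw [← this]
          exact h1.le
      · simp [hf, indicator_of_notMem hyE]
    · exact hi.sub (hfint.mul_const _)
  have hne' : hilbert f x ≠ 0 := by
    rw [hilbert_eq hPV]
    have := Real.pi_pos
    positivity
  have : 0 < |hilbert f x| ^ p * U x := mul_pos (Real.rpow_pos_of_pos (abs_pos.mpr hne') p) hUx
  linarith

/-- An admissible function which is not a.e. zero is a.e. positive. -/
lemma pos_ae {p : ℝ} (hp : 0 < p) {U : ℝ → ℝ} (hm : Measurable U) (h0 : ∀ x, 0 ≤ U x)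
    (hne : ¬ U =ᵐ[volume] 0) (hU : Admissible p U) : ∀ᵐ x, 0 < U x := by
  by_contra hcon
  have hE : MeasurableSet {x | U x = 0} := hm (measurableSet_singleton 0)
  have hpos : volume {x | U x = 0} ≠ 0 := by
    intro h
    apply hcon
    rw [ae_iff]
    refine measure_mono_null (fun x hx => ?_) h
    exact le_antisymm (not_lt.mp hx) (h0 x)
  -- a bounded part of positive measure
  obtain ⟨n, hn⟩ : ∃ n : ℕ, volume ({x | U x = 0} ∩ Icc (-(n : ℝ)) n) ≠ 0 := by
    by_contra hall
    push Not at hall
    apply hpos
    have : {x | U x = 0} = ⋃ n : ℕ, ({x | U x = 0} ∩ Icc (-(n : ℝ)) n) := by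
      rw [← inter_iUnion]
      have : (⋃ n : ℕ, Icc (-(n : ℝ)) n) = univ := by
        ext x
        simp only [mem_iUnion, mem_univ, iff_true]
        obtain ⟨n, hn⟩ := exists_nat_ge |x|
        exact ⟨n, abs_le.mp hn⟩
      rw [this, inter_univ]
    rw [this, measure_iUnion_null_iff]
    exact hall
  have hn0 : (-(n : ℝ)) < n := by
    rcases Nat.eq_zero_or_pos n with h | h
    · subst h
      exfalso
      apply hn
      refine measure_mono_null inter_subset_right ?_
      simp
    · have : (0 : ℝ) < n := by exact_mod_cast h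
      linarith
  have h1 := zero_off hp hm h0 hU (hE.inter measurableSet_Icc) inter_subset_right
    (pos_iff_ne_zero.mpr hn) (fun x hx => hx.1)
  -- now a second interval, off the first one
  set a : ℝ := n + 1 with ha
  have hvolE : volume ({x | U x = 0} ∩ Icc a (a + 1)) = volume (Icc a (a + 1)) := by
    refine measure_congr ?_
    filter_upwards [h1] with x hx
    refine propext ⟨fun h => h.2, fun hxI => ⟨hx ?_, hxI⟩⟩
    intro hmem
    have hxI : x ∈ Icc a (a + 1) := hxI
    have := hxI.1
    have := hmem.2
    linarith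
  have h2 := zero_off hp hm h0 hU (hE.inter measurableSet_Icc)
    inter_subset_right (by rw [hvolE]; simp) (fun x hx => hx.1)
  apply hne
  filter_upwards [h1, h2] with x hx1 hx2
  by_cases h : x ∈ Icc (-(n : ℝ)) n
  · apply hx2
    intro hmem
    have := hmem.1
    have := h.2
    linarith
  · exact hx1 h

end Pool.Agent.V8H55.HW
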