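import Pool.Agent.V8H55.HW.Ap

set_option autoImplicit false

open MeasureTheory Filter Topology Set

namespace Pool.Agent.V8H55.HW

lemma rpow_add_le_two {p : ℝ} (hp : 0 ≤ p) {a b : ℝ} (ha : 0 ≤ a) (hb : 0 ≤ b) :
    (a + b) ^ p ≤ 2 ^ p * (a ^ p + b ^ p) := by
  have h1 : (a + b) ≤ 2 * max a b := by
    have := le_max_left a b
    have := le_max_right a b
    linarith
  have hm : 0 ≤ max a b := le_max_of_le_left ha
  calc (a + b) ^ p ≤ (2 * max a b) ^ p := Real.rpow_le_rpow (by positivity) h1 hp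
    _ = 2 ^ p * (max a b) ^ p := Real.mul_rpow (by norm_num) hm
    _ ≤ 2 ^ p * (a ^ p + b ^ p) := by
        refine mul_le_mul_of_nonneg_left ?_ (by positivity)
        rcases max_choice a b with h | h
        · rw [h]
          have := Real.rpow_nonneg hb p
          linarith
        · rw [h]
          have := Real.rpow_nonneg ha p
          linarith

lemma wInt_meas {p : ℝ} {U f : ℝ → ℝ} (hU : Measurable U) (hf : AEMeasurable f) :
    AEMeasurable (fun x => ENNReal.ofReal (|f x| ^ p * U x)) :=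
  (((hf.abs).pow_const p).mul hU.aemeasurable).ennreal_ofReal

lemma wInt_le_of_le {p : ℝ} (hp : 0 < p) {U F f g : ℝ → ℝ} (hU : Measurable U)
    (h0 : ∀ x, 0 ≤ U x) (hf : AEMeasurable f) (h : ∀ᵐ x, |F x| ≤ |f x| + |g x|) :
    wInt p U F ≤ ENNReal.ofReal (2 ^ p) * (wInt p U f + wInt p U g) := by
  unfold wInt
  rw [← lintegral_add_left' (wInt_meas hU hf), ← lintegral_const_mul' _ _ ENNReal.ofReal_ne_top]
  refine lintegral_mono_ae ?_
  filter_upwards [h] with x hx
  have hf0 : 0 ≤ |f x| ^ p * U x := mul_nonneg (Real.rpow_nonneg (abs_nonneg _) _) (h0 x)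
  have hg0 : 0 ≤ |g x| ^ p * U x := mul_nonneg (Real.rpow_nonneg (abs_nonneg _) _) (h0 x)
  rw [← ENNReal.ofReal_add hf0 hg0, ← ENNReal.ofReal_mul (by positivity)]
  apply ENNReal.ofReal_le_ofReal
  calc |F x| ^ p * U x ≤ (|f x| + |g x|) ^ p * U x :=
        mul_le_mul_of_nonneg_right (Real.rpow_le_rpow (abs_nonneg _) hx hp.le) (h0 x)
    _ ≤ (2 ^ p * (|f x| ^ p + |g x| ^ p)) * U x :=
        mul_le_mul_of_nonneg_right (rpow_add_le_two hp.le (abs_nonneg _) (abs_nonneg _)) (h0 x)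
    _ = 2 ^ p * (|f x| ^ p * U x + |g x| ^ p * U x) := by ring

lemma wInt_const_mul {p : ℝ} {U f : ℝ → ℝ} (c : ℝ) :
    wInt p U (fun x => c * f x) = ENNReal.ofReal (|c| ^ p) * wInt p U f := by
  unfold wInt
  rw [← lintegral_const_mul' _ _ ENNReal.ofReal_ne_top]
  refine lintegral_congr fun x => ?_
  rw [← ENNReal.ofReal_mul (by positivity), abs_mul, Real.mul_rpow (abs_nonneg _) (abs_nonneg _)]
  ring_nf

lemma wInt_mono {p : ℝ} {U V f g : ℝ → ℝ} (h : ∀ᵐ x, |f x| ^ p * U x ≤ |g x| ^ p * V x) :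
    wInt p U f ≤ wInt p V g := by
  unfold wInt
  refine lintegral_mono_ae ?_
  filter_upwards [h] with x hx
  exact ENNReal.ofReal_le_ofReal hx

/-- sum of a function and a multiple of another one -/
lemma wInt_comb {p : ℝ} (hp : 0 < p) {U f g : ℝ → ℝ} (hU : Measurable U)
    (h0 : ∀ x, 0 ≤ U x) (hf : AEMeasurable f) (c : ℝ) :
    wInt p U (fun x => f x + c * g x) ≤
      ENNReal.ofReal (2 ^ p) * (wInt p U f + ENNReal.ofReal (|c| ^ p) * wInt p U g) := by
  rw [← wInt_const_mul]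
  exact wInt_le_of_le hp hU h0 hf (Eventually.of_forall fun x => abs_add_le _ _)

/-- Fatou -/
lemma fatou {p : ℝ} (hp : 0 < p) {V V' F : ℝ → ℝ} {f : ℕ → ℝ → ℝ} (hV : Measurable V)
    (hf : ∀ n, Integrable (f n))
    (h : ∀ᵐ x, F x = 0 ∨
      Tendsto (fun n => |hilbert (f n) x| ^ p * V x) atTop (𝓝 (|F x| ^ p * V' x)))
    {B : ℕ → ENNReal} {b : ENNReal} (hB : ∀ n, wInt p V (hilbert (f n)) ≤ B n)
    (hb : Tendsto B atTop (𝓝 b)) : wInt p V' F ≤ b := by
  calc wInt p V' F ≤ ∫⁻ x, liminf (fun n => ENNReal.ofReal (|hilbert (f n) x| ^ p * V x)) atTop := by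
        refine lintegral_mono_ae ?_
        filter_upwards [h] with x hx
        rcases hx with hx | hx
        · rw [hx, abs_zero, Real.zero_rpow hp.ne', zero_mul, ENNReal.ofReal_zero]
          exact bot_le
        · have := (ENNReal.continuous_ofReal.tendsto _).comp hx
          rw [← this.liminf_eq]
          rfl
    _ ≤ liminf (fun n => ∫⁻ x, ENNReal.ofReal (|hilbert (f n) x| ^ p * V x)) atTop :=
        lintegral_liminf_le fun n =>
          ((((hilbert_measurable (hf n)).abs).pow_const p).mul hV).ennreal_ofReal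
    _ ≤ liminf B atTop := liminf_le_liminf (Eventually.of_forall hB)
    _ = b := hb.liminf_eq

/-- sets of infinite dual mass carry probability densities of small cost -/
lemma conc {p : ℝ} (hp : 1 < p) {U : ℝ → ℝ} (hm : Measurable U) (h0 : ∀ x, 0 ≤ U x)
    (hpos : ∀ᵐ x, 0 < U x) {A : Set ℝ} (hA : MeasurableSet A)
    (hinf : ∫⁻ x in A, ENNReal.ofReal (sig p U x) = ⊤) {ε : ℝ} (hε : 0 < ε) :
    ∃ g : ℝ → ℝ, Integrable g ∧ (∀ x, 0 ≤ g x) ∧ (∀ x, x ∉ A → g x = 0) ∧ ∫ x, g x = 1 ∧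
      wInt p U g ≤ ENNReal.ofReal ε := by
  have hp1 : 0 < p - 1 := by linarith
  set T : ℝ := ε⁻¹ ^ (1 / (p - 1)) with hT
  have hTpos : 0 < T := Real.rpow_pos_of_pos (inv_pos.mpr hε) _
  have hTp : T ^ (p - 1) = ε⁻¹ := by
    rw [hT, ← Real.rpow_mul (inv_pos.mpr hε).le]
    have : 1 / (p - 1) * (p - 1) = 1 := by field_simp
    rw [this, Real.rpow_one]
  -- a bounded part
  have hmono : Tendsto (fun n : ℕ => ∫⁻ x in A ∩ Icc (-(n : ℝ)) n, ENNReal.ofReal (sig p U x))
      atTop (𝓝 (∫⁻ x in A, ENNReal.ofReal (sig p U x))) := by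
    have e : ∀ n : ℕ, ∫⁻ x in A ∩ Icc (-(n : ℝ)) n, ENNReal.ofReal (sig p U x) =
        ∫⁻ x, indicator (A ∩ Icc (-(n : ℝ)) n) (fun x => ENNReal.ofReal (sig p U x)) x := fun n =>
      (lintegral_indicator (hA.inter measurableSet_Icc) _).symm
    have e' : ∫⁻ x in A, ENNReal.ofReal (sig p U x) =
        ∫⁻ x, indicator A (fun x => ENNReal.ofReal (sig p U x)) x := (lintegral_indicator hA _).symm
    simp only [e]
    rw [e']
    refine lintegral_tendsto_of_tendsto_of_monotone (fun n =>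
      ((sig_meas hm).ennreal_ofReal.indicator (hA.inter measurableSet_Icc)).aemeasurable) ?_ ?_
    · refine Eventually.of_forall fun x n m hnm => ?_
      refine indicator_le_indicator_of_subset ?_ (fun _ => bot_le) x
      refine inter_subset_inter_right _ (Icc_subset_Icc ?_ ?_)
      · have : (n : ℝ) ≤ m := by exact_mod_cast hnm
        linarith
      · exact_mod_cast hnm
    · refine Eventually.of_forall fun x => ?_
      refine Tendsto.congr' ?_ tendsto_const_nhds
      obtain ⟨N, hN⟩ := exists_nat_ge |x|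
      filter_upwards [eventually_ge_atTop N] with n hn
      have hx : x ∈ Icc (-(n : ℝ)) n := abs_le.mp (hN.trans (by exact_mod_cast hn))
      by_cases hxA : x ∈ A
      · have h2 : x ∈ A ∩ Icc (-(n : ℝ)) n := ⟨hxA, hx⟩
        rw [indicator_of_mem hxA, indicator_of_mem h2]
      · have h2 : x ∉ A ∩ Icc (-(n : ℝ)) n := fun h => hxA h.1
        rw [indicator_of_notMem hxA, indicator_of_notMem h2]
  rw [hinf] at hmono
  obtain ⟨n, hn⟩ := (hmono.eventually (lt_mem_nhds (show ENNReal.ofReal T < ⊤ from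
    ENNReal.ofReal_lt_top))).exists
  have hA' : MeasurableSet (A ∩ Icc (-(n : ℝ)) n) := hA.inter measurableSet_Icc
  obtain ⟨k, hk⟩ := ((tr_tendsto (p := p) hm hA').eventually (lt_mem_nhds hn)).exists
  have hfin : volume (A ∩ Icc (-(n : ℝ)) n) ≠ ⊤ :=
    ne_top_of_le_ne_top (by simp) (measure_mono inter_subset_right)
  have hint := tr_int (p := p) hm h0 hA' hfin k
  set φ := tr p U (A ∩ Icc (-(n : ℝ)) n) k with hφ
  have hφ0 : ∀ x, 0 ≤ φ x := tr_nonneg h0 _ _
  set m : ℝ := ∫ x, φ x with hmdef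
  have hmass : ∫⁻ x, ENNReal.ofReal (φ x) = ENNReal.ofReal m := by
    rw [hmdef, ofReal_integral_eq_lintegral_ofReal hint (Eventually.of_forall hφ0)]
  rw [hmass] at hk
  have hmT : T < m := by
    have hm0 : 0 < m := ENNReal.ofReal_pos.mp (lt_of_le_of_lt bot_le hk)
    exact (ENNReal.ofReal_lt_ofReal_iff hm0).mp hk
  have hm0 : 0 < m := hTpos.trans hmT
  refine ⟨fun x => m⁻¹ * φ x, hint.const_mul _, fun x => mul_nonneg (inv_pos.mpr hm0).le (hφ0 x),
    ?_, ?_, ?_⟩
  · intro x hx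
    have h2 : x ∉ A ∩ Icc (-(n : ℝ)) n := fun h => hx h.1
    show m⁻¹ * φ x = 0
    rw [hφ]
    unfold tr
    rw [indicator_of_notMem h2, mul_zero]
  · rw [integral_const_mul, ← hmdef, inv_mul_cancel₀ hm0.ne']
  · rw [wInt_const_mul]
    calc ENNReal.ofReal (|m⁻¹| ^ p) * wInt p U φ ≤ ENNReal.ofReal (|m⁻¹| ^ p) * ENNReal.ofReal m := by
          refine mul_le_mul_right ?_ _
          rw [← hmass]
          exact wInt_tr_le hp h0 hpos _ k
      _ = ENNReal.ofReal (m ^ (p - 1))⁻¹ := by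
          rw [← ENNReal.ofReal_mul (by positivity)]
          congr 1
          rw [abs_of_pos (inv_pos.mpr hm0), Real.inv_rpow hm0.le, Real.rpow_sub hm0, Real.rpow_one]
          field_simp
      _ ≤ ENNReal.ofReal ε := by
          apply ENNReal.ofReal_le_ofReal
          have h1 : ε⁻¹ ≤ m ^ (p - 1) := by
            rw [← hTp]
            exact Real.rpow_le_rpow hTpos.le hmT.le hp1.le
          rw [inv_le_comm₀ (by positivity) hε]
          exact h1

end Pool.Agent.V8H55.HW
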